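import Pool.Agent.Helper46.T.Pres

set_option autoImplicit false
set_option linter.unusedSectionVars false

namespace Pool.Agent.Helper46.T

open Finset

variable {α : Type} [Fintype α] [DecidableEq α] [Nonempty α]

open Classical in
/-- Transversals of a family of `r` sets. -/
noncomputable def bas {r : ℕ} (A : Fin r → Finset α) : Finset (Finset α) :=
  univ.filter (fun B => ∃ g : Fin r → α, Function.Injective g ∧ (∀ j, g j ∈ A j) ∧
    univ.image g = B)

theorem mem_bas {r : ℕ} (A : Fin r → Finset α) (B : Finset α) :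
    B ∈ bas A ↔ ∃ g : Fin r → α, Function.Injective g ∧ (∀ j, g j ∈ A j) ∧
    univ.image g = B := by
  simp [bas]

theorem mem_bas_pt {r : ℕ} (A : Fin r → Finset α) (B : Finset α) :
    B ∈ bas A ↔ PT A B ∧ B.card = r := by
  rw [mem_bas]
  constructor
  · rintro ⟨g, hg, hgA, rfl⟩
    refine ⟨⟨univ, g, hg.injOn, fun j _ => hgA j, rfl⟩, ?_⟩
    rw [card_image_of_injective _ hg, card_univ, Fintype.card_fin]
  · rintro ⟨⟨K, g, hg, hgA, rfl⟩, hcard⟩
    rw [card_image_of_injOn hg] at hcard
    have hK : K = univ := by
      rw [← card_eq_iff_eq_univ, hcard, Fintype.card_fin]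
    subst hK
    refine ⟨g, ?_, fun j => hgA j (mem_univ j), rfl⟩
    intro a b hab
    exact hg (mem_coe.2 (mem_univ a)) (mem_coe.2 (mem_univ b)) hab

theorem mem_bas_hall {r : ℕ} (A : Fin r → Finset α) (B : Finset α) :
    B ∈ bas A ↔ B.card = r ∧ ∀ I : Finset (Fin r), I.card ≤ (I.biUnion A ∩ B).card := by
  have hb : ∀ I : Finset (Fin r), I.biUnion (fun j => A j ∩ B) = I.biUnion A ∩ B := by
    intro I
    ext x
    simp only [mem_biUnion, mem_inter]
    constructor
    · rintro ⟨j, hj, h1, h2⟩
      exact ⟨⟨j, hj, h1⟩, h2⟩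
    · rintro ⟨⟨j, hj, h1⟩, h2⟩
      exact ⟨j, hj, h1, h2⟩
  have hall := Finset.all_card_le_biUnion_card_iff_exists_injective (fun j => A j ∩ B)
  simp only [hb] at hall
  rw [hall, mem_bas]
  constructor
  · rintro ⟨g, hg, hgA, rfl⟩
    refine ⟨by rw [card_image_of_injective _ hg, card_univ, Fintype.card_fin], g, hg, ?_⟩
    intro j
    rw [mem_inter]
    exact ⟨hgA j, mem_image_of_mem g (mem_univ j)⟩
  · rintro ⟨hB, g, hg, hgA⟩
    refine ⟨g, hg, fun j => (mem_inter.1 (hgA j)).1, ?_⟩
    apply eq_of_subset_of_card_le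
    · intro x hx
      rw [mem_image] at hx
      obtain ⟨j, -, rfl⟩ := hx
      exact (mem_inter.1 (hgA j)).2
    · rw [hB, card_image_of_injective _ hg, card_univ, Fintype.card_fin]

open Classical in
/-- Free lift of a family of bases. -/
noncomputable def Lift (S : Finset (Finset α)) : Finset (Finset α) :=
  univ.filter (fun B => ∃ b ∈ B, B.erase b ∈ S)

theorem mem_Lift (S : Finset (Finset α)) (B : Finset α) :
    B ∈ Lift S ↔ ∃ b ∈ B, B.erase b ∈ S := by
  simp [Lift]

theorem lift_eq {r : ℕ} (A : Fin (r + 1) → Finset α) (hM : MinP A) (i : Fin (r + 1))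
    (hi : (A i)ᶜ.card ≤ r) : bas A = Lift (bas (fun k => A (i.succAbove k))) := by
  classical
  ext B
  rw [mem_Lift]
  constructor
  · intro hB
    rw [mem_bas] at hB
    obtain ⟨g, hg, hgA, rfl⟩ := hB
    refine ⟨g i, mem_image_of_mem g (mem_univ i), ?_⟩
    rw [mem_bas]
    refine ⟨fun k => g (i.succAbove k), ?_, fun k => hgA _, ?_⟩
    · intro a b hab
      exact Fin.succAbove_right_injective (hg hab)
    · ext x
      simp only [mem_image, mem_univ, true_and, mem_erase]
      constructor
      · rintro ⟨k, rfl⟩
        exact ⟨fun h => Fin.succAbove_ne i k (hg h), _, rfl⟩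
      · rintro ⟨h1, j, rfl⟩
        have h2 : j ≠ i := fun h => h1 (by rw [h])
        obtain ⟨k, rfl⟩ := Fin.exists_succAbove_eq h2
        exact ⟨k, rfl⟩
  · rintro ⟨b, hb, hB⟩
    rw [mem_bas] at hB
    obtain ⟨g, hg, hgA, hgB⟩ := hB
    rw [mem_bas_hall]
    have hBcard : B.card = r + 1 := by
      have h1 : (B.erase b).card = r := by
        rw [← hgB, card_image_of_injective _ hg, card_univ, Fintype.card_fin]
      rw [card_erase_of_mem hb] at h1
      have : 0 < B.card := card_pos.2 ⟨b, hb⟩
      omega
    refine ⟨hBcard, ?_⟩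
    -- indices different from i
    have key : ∀ I : Finset (Fin (r + 1)), i ∉ I → I.card ≤ (I.biUnion A ∩ B).card := by
      intro I hI
      have h1 : I = (univ.filter (fun k : Fin r => i.succAbove k ∈ I)).image i.succAbove := by
        ext j
        rw [mem_image]
        constructor
        · intro hj
          have h2 : j ≠ i := fun h => hI (h ▸ hj)
          obtain ⟨k, rfl⟩ := Fin.exists_succAbove_eq h2
          exact ⟨k, by rw [mem_filter]; exact ⟨mem_univ _, hj⟩, rfl⟩
        · rintro ⟨k, hk, rfl⟩
          exact (mem_filter.1 hk).2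
      have h2 : I.card = ((univ.filter (fun k : Fin r => i.succAbove k ∈ I)).image g).card := by
        conv_lhs => rw [h1]
        rw [card_image_of_injective _ Fin.succAbove_right_injective, card_image_of_injective _ hg]
      rw [h2]
      apply card_le_card
      intro x hx
      rw [mem_image] at hx
      obtain ⟨k, hk, rfl⟩ := hx
      rw [mem_filter] at hk
      rw [mem_inter, mem_biUnion]
      refine ⟨⟨i.succAbove k, hk.2, hgA k⟩, ?_⟩
      have h3 : g k ∈ B.erase b := by
        rw [← hgB]
        exact mem_image_of_mem g (mem_univ k)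
      exact (mem_erase.1 h3).2
    intro I
    by_cases hI : i ∉ I
    · exact key I hI
    · rw [not_not] at hI
      by_contra hcon
      push Not at hcon
      have h1 := key (I.erase i) (notMem_erase i I)
      rw [card_erase_of_mem hI] at h1
      -- the set D
      set D := B \ I.biUnion A with hD
      have hDcard : D.card + (I.biUnion A ∩ B).card = B.card := by
        rw [hD, inter_comm]
        exact card_sdiff_add_card_inter B (I.biUnion A)
      obtain ⟨h, hinj, hh⟩ := hM i
      -- H is the image of h
      have hHimg : (univ.erase i).image h = (A i)ᶜ := by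
        apply eq_of_subset_of_card_le
        · intro x hx
          rw [mem_image] at hx
          obtain ⟨j, hj, rfl⟩ := hx
          rw [mem_compl]
          exact (hh j (mem_erase.1 hj).1).2
        · rw [card_image_of_injOn, card_erase_of_mem (mem_univ i), card_univ, Fintype.card_fin]
          · omega
          · intro a ha c hc hac
            rw [mem_coe, mem_erase] at ha hc
            exact hinj a c ha.1 hc.1 hac
      have hDsub : D ⊆ (Iᶜ).image h := by
        intro x hx
        rw [hD, mem_sdiff, mem_biUnion] at hx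
        have h2 : x ∈ (A i)ᶜ := by
          rw [mem_compl]
          intro h3
          exact hx.2 ⟨i, hI, h3⟩
        rw [← hHimg, mem_image] at h2
        obtain ⟨j, hj, rfl⟩ := h2
        rw [mem_image]
        refine ⟨j, ?_, rfl⟩
        rw [mem_compl]
        intro h4
        exact hx.2 ⟨j, h4, (hh j (mem_erase.1 hj).1).1⟩
      have h5 : D.card ≤ (Iᶜ).card := (card_le_card hDsub).trans card_image_le
      have h6 := card_compl_add_card I
      rw [Fintype.card_fin] at h6
      omega

theorem decomp : ∀ (r : ℕ) (A : Fin r → Finset α), (bas A).Nonempty →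
    ∃ s j : ℕ, s + j = r ∧ ∃ A' : Fin s → Finset α, Function.Injective A' ∧
      (∀ i, (A' i).card + s ≤ Fintype.card α) ∧ bas A = Lift^[j] (bas A') := by
  classical
  intro r
  induction r with
  | zero =>
    intro A _
    exact ⟨0, 0, rfl, A, fun i => i.elim0, fun i => i.elim0, rfl⟩
  | succ r ih =>
    intro A hA
    have h1 : ∃ I, PT A I ∧ I.card = r + 1 := by
      obtain ⟨B, hB⟩ := hA
      exact ⟨B, (mem_bas_pt A B).1 hB⟩
    have h2 : ∀ I, PT A I → I.card ≤ r + 1 := by
      rintro I ⟨K, g, -, -, rfl⟩
      refine card_image_le.trans ?_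
      have := card_le_univ K
      rwa [Fintype.card_fin] at this
    obtain ⟨A', hA', hM⟩ := pres_fin A (r + 1) h1 h2
    have hbas : bas A = bas A' := by
      ext B
      rw [mem_bas_pt, mem_bas_pt, hA']
    by_cases hall : ∀ i, (A' i).card + (r + 1) ≤ Fintype.card α
    · exact ⟨r + 1, 0, rfl, A', hM.injective, hall, hbas⟩
    · push Not at hall
      obtain ⟨i, hi⟩ := hall
      have hi' : (A' i)ᶜ.card ≤ r := by
        rw [card_compl]
        omega
      have h3 := lift_eq A' hM i hi'
      have h4 : (bas (fun k => A' (i.succAbove k))).Nonempty := by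
        rw [hbas, h3] at hA
        obtain ⟨B, hB⟩ := hA
        rw [mem_Lift] at hB
        obtain ⟨b, -, hb⟩ := hB
        exact ⟨_, hb⟩
      obtain ⟨s, j, hsj, A'', hinj, hsz, heq⟩ := ih _ h4
      refine ⟨s, j + 1, by omega, A'', hinj, hsz, ?_⟩
      rw [hbas, h3, heq, Function.iterate_succ_apply']

end Pool.Agent.Helper46.T
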