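import Pool.Agent.Helper46.T.Defs

set_option autoImplicit false
set_option linter.unusedSectionVars false

namespace Pool.Agent.Helper46.T

open Finset

variable {n s : ℕ}

noncomputable instance fintype_matroid (n : ℕ) : Fintype (Matroid (Fin n)) := Fintype.ofFinite _

open Classical in
/-- Families of small sets. -/
noncomputable def AL (n s : ℕ) : Finset (Fin s → Finset (Fin n)) :=
  univ.filter (fun A => ∀ i, (A i).card + s ≤ n)

open Classical in
/-- Typical families of small sets. -/
noncomputable def TY (n s : ℕ) : Finset (Fin s → Finset (Fin n)) :=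
  (AL n s).filter (fun A => Typ A)

open Classical in
/-- Atypical families of small sets. -/
noncomputable def NT (n s : ℕ) : Finset (Fin s → Finset (Fin n)) :=
  (AL n s).filter (fun A => ¬ Typ A)

theorem card_TY_add (n s : ℕ) : (TY n s).card + (NT n s).card = (AL n s).card := by
  classical
  unfold TY NT
  exact card_filter_add_card_filter_not _

section

variable [Nonempty (Fin n)]

theorem bas_perm (A : Fin s → Finset (Fin n)) (σ : Equiv.Perm (Fin s)) :
    bas (fun i => A (σ i)) = bas A := by
  ext B
  rw [mem_bas, mem_bas]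
  constructor
  · rintro ⟨g, hg, hgA, hB⟩
    refine ⟨fun i => g (σ.symm i), hg.comp σ.symm.injective, ?_, ?_⟩
    · intro j
      have := hgA (σ.symm j)
      rwa [Equiv.apply_symm_apply] at this
    · rw [← hB]
      ext x
      simp only [mem_image, mem_univ, true_and]
      constructor
      · rintro ⟨i, rfl⟩
        exact ⟨_, rfl⟩
      · rintro ⟨i, rfl⟩
        exact ⟨σ i, by rw [Equiv.symm_apply_apply]⟩
  · rintro ⟨g, hg, hgA, hB⟩
    refine ⟨fun i => g (σ i), hg.comp σ.injective, fun j => hgA _, ?_⟩
    rw [← hB]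
    ext x
    simp only [mem_image, mem_univ, true_and]
    constructor
    · rintro ⟨i, rfl⟩
      exact ⟨_, rfl⟩
    · rintro ⟨i, rfl⟩
      exact ⟨σ.symm i, by rw [Equiv.apply_symm_apply]⟩

theorem typ_perm (A : Fin s → Finset (Fin n)) (σ : Equiv.Perm (Fin s)) (h : Typ A) :
    Typ (fun i => A (σ i)) := by
  intro I hI
  have h1 := h (I.map σ.toEmbedding) (by rw [card_map]; exact hI)
  rw [card_map] at h1
  have h2 : (I.map σ.toEmbedding).biUnion A = I.biUnion (fun i => A (σ i)) := by
    ext x
    simp only [mem_biUnion, mem_map, Equiv.coe_toEmbedding]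
    constructor
    · rintro ⟨j, ⟨i, hi, rfl⟩, hx⟩
      exact ⟨i, hi, hx⟩
    · rintro ⟨i, hi, hx⟩
      exact ⟨σ i, ⟨i, hi, rfl⟩, hx⟩
  rw [h2] at h1
  exact h1

theorem typ_perm_iff (A : Fin s → Finset (Fin n)) (σ : Equiv.Perm (Fin s)) :
    Typ (fun i => A (σ i)) ↔ Typ A := by
  constructor
  · intro h
    have := typ_perm _ σ.symm h
    simpa using this
  · exact typ_perm A σ

/-- Matroids with the same Tutte polynomial as a given Tutte unique one. -/
theorem card_same (S : Finset (Matroid (Fin n)))
    (hS : ∀ M ∈ S, M.E = Set.univ ∧ TutteUnique M)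
    (hS2 : ∀ M ∈ S, ∀ M' ∈ S, tutte M = tutte M') : S.card ≤ n.factorial := by
  classical
  rcases S.eq_empty_or_nonempty with h | ⟨M0, hM0⟩
  · rw [h, card_empty]
    exact Nat.zero_le _
  · have h1 : ∀ M : Matroid (Fin n), ∃ e : Equiv.Perm (Fin n), M ∈ S →
        ∀ I : Set (Fin n), M.Indep I ↔ M0.Indep (e '' I) := by
      intro M
      by_cases hM : M ∈ S
      · obtain ⟨e, he⟩ := (hS M0 hM0).2 n M (hS M hM).1 (hS2 M hM M0 hM0)
        exact ⟨e, fun _ => he⟩
      · exact ⟨1, fun h => absurd h hM⟩
    choose f hf using h1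
    have h2 : (Finset.univ : Finset (Equiv.Perm (Fin n))).card = n.factorial := by
      rw [card_univ, Fintype.card_perm, Fintype.card_fin]
    rw [← h2]
    apply card_le_card_of_injOn f (fun _ _ => mem_univ _)
    intro M hM M' hM' hMM
    apply Matroid.ext_indep (by rw [(hS M hM).1, (hS M' hM').1])
    intro I _
    rw [hf M hM, hf M' hM', hMM]

/-- Atypical matroids of a given kind. -/
theorem card_atyp (j : ℕ) (S : Finset (Matroid (Fin n)))
    (hS : ∀ M ∈ S, ∃ A ∈ NT n s, Function.Injective A ∧ HasB M (Lift^[j] (bas A))) :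
    S.card * s.factorial ≤ (NT n s).card := by
  classical
  have h1 : ∀ M : Matroid (Fin n), ∃ A : Fin s → Finset (Fin n), M ∈ S →
      (A ∈ NT n s ∧ Function.Injective A ∧ HasB M (Lift^[j] (bas A))) := by
    intro M
    by_cases hM : M ∈ S
    · obtain ⟨A, h⟩ := hS M hM
      exact ⟨A, fun _ => h⟩
    · exact ⟨fun _ => ∅, fun h => absurd h hM⟩
  choose f hf using h1
  have h2 : (Finset.univ : Finset (Equiv.Perm (Fin s))).card = s.factorial := by
    rw [card_univ, Fintype.card_perm, Fintype.card_fin]
  rw [← h2, ← card_product]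
  apply card_le_card_of_injOn (fun p : Matroid (Fin n) × Equiv.Perm (Fin s) =>
    fun i => f p.1 (p.2 i))
  · rintro ⟨M, σ⟩ hp
    rw [mem_coe, mem_product] at hp
    obtain ⟨hA, -, -⟩ := hf M hp.1
    unfold NT AL at hA
    rw [mem_filter, mem_filter] at hA
    unfold NT AL
    rw [mem_coe, mem_filter, mem_filter]
    exact ⟨⟨mem_univ _, fun i => hA.1.2 _⟩, fun h => hA.2 ((typ_perm_iff _ _).1 h)⟩
  · rintro ⟨M, σ⟩ hp ⟨M', σ'⟩ hp' heq
    rw [mem_coe, mem_product] at hp hp'
    obtain ⟨-, hinj, hB⟩ := hf M hp.1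
    obtain ⟨-, -, hB'⟩ := hf M' hp'.1
    simp only at heq
    have h3 : bas (f M) = bas (f M') := by
      rw [← bas_perm (f M) σ, heq, bas_perm]
    rw [← h3] at hB'
    have h4 : M = M' := hB.ext hB'
    subst h4
    have h5 : σ = σ' := by
      ext i
      have := congrFun heq i
      rw [hinj this]
    rw [h5]

open Classical in
/-- Upper bound for the number of Tutte unique transversal matroids. -/
theorem upper_count :
    ((univ.filter (fun M : Matroid (Fin n) => IsTransversal M ∧ TutteUnique M)).card : ℝ) ≤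
      ((n : ℝ) + 1) ^ 2 * (((n : ℝ) + 1) ^ n * n.factorial) +
      ((n : ℝ) + 1) * ∑ s ∈ range (n + 1), ((NT n s).card : ℝ) / s.factorial := by
  set U := univ.filter (fun M : Matroid (Fin n) => IsTransversal M ∧ TutteUnique M) with hU
  have hcov : U ⊆ (range (n + 1)).biUnion (fun s => (range (n + 1)).biUnion (fun j =>
      ((univ : Finset (Fin s → Fin (n + 1))).biUnion (fun c =>
        U.filter (fun M => ∃ A : Fin s → Finset (Fin n), Typ A ∧
          (∀ i, (A i).card = (c i : ℕ)) ∧ HasB M (pav (s + j) A)))) ∪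
      U.filter (fun M => ∃ A ∈ NT n s, Function.Injective A ∧ HasB M (Lift^[j] (bas A))))) := by
    intro M hM
    have hM' := hM
    rw [hU, mem_filter] at hM'
    obtain ⟨s, j, hsj, A, hinj, hsz, hB⟩ := trans_decomp M hM'.2.1
    rw [mem_biUnion]
    refine ⟨s, by rw [mem_range]; omega, ?_⟩
    rw [mem_biUnion]
    refine ⟨j, by rw [mem_range]; omega, ?_⟩
    rw [mem_union]
    by_cases hT : Typ A
    · left
      rw [mem_biUnion]
      refine ⟨fun i => ⟨(A i).card, by have := hsz i; omega⟩, mem_univ _, ?_⟩
      rw [mem_filter]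
      refine ⟨hM, A, hT, fun i => rfl, ?_⟩
      rw [← iterate_lift A hT j]
      exact hB
    · right
      rw [mem_filter]
      refine ⟨hM, A, ?_, hinj, hB⟩
      unfold NT AL
      rw [mem_filter, mem_filter]
      exact ⟨⟨mem_univ _, hsz⟩, hT⟩
  have h1 : ∀ s ∈ range (n + 1), ∀ j ∈ range (n + 1),
      ((((univ : Finset (Fin s → Fin (n + 1))).biUnion (fun c =>
        U.filter (fun M => ∃ A : Fin s → Finset (Fin n), Typ A ∧
          (∀ i, (A i).card = (c i : ℕ)) ∧ HasB M (pav (s + j) A)))) ∪
      U.filter (fun M => ∃ A ∈ NT n s, Function.Injective A ∧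
        HasB M (Lift^[j] (bas A)))).card : ℝ) ≤
      ((n : ℝ) + 1) ^ n * n.factorial + ((NT n s).card : ℝ) / s.factorial := by
    intro s hs j _
    rw [mem_range] at hs
    have h2 : ((univ : Finset (Fin s → Fin (n + 1))).biUnion (fun c =>
        U.filter (fun M => ∃ A : Fin s → Finset (Fin n), Typ A ∧
          (∀ i, (A i).card = (c i : ℕ)) ∧ HasB M (pav (s + j) A)))).card
        ≤ (n + 1) ^ n * n.factorial := by
      refine card_biUnion_le.trans ?_
      have h3 : ∀ c ∈ (univ : Finset (Fin s → Fin (n + 1))),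
          (U.filter (fun M => ∃ A : Fin s → Finset (Fin n), Typ A ∧
          (∀ i, (A i).card = (c i : ℕ)) ∧ HasB M (pav (s + j) A))).card ≤ n.factorial := by
        intro c _
        apply card_same
        · intro M hM
          rw [mem_filter, hU, mem_filter] at hM
          exact ⟨hM.1.2.1.1, hM.1.2.2⟩
        · intro M hM M' hM'
          rw [mem_filter] at hM hM'
          obtain ⟨-, A, hT, hc, hB⟩ := hM
          obtain ⟨-, A', hT', hc', hB'⟩ := hM'
          exact tutte_congr M M' A A' hT hT' (s + j) (by omega) hB hB'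
            (fun i => by rw [hc, hc'])
      refine (sum_le_sum h3).trans ?_
      rw [sum_const, card_univ, Fintype.card_fun, Fintype.card_fin, Fintype.card_fin, smul_eq_mul]
      apply Nat.mul_le_mul_right
      exact Nat.pow_le_pow_right (by omega) (by omega)
    have h4 := card_atyp (n := n) (s := s) j (U.filter (fun M => ∃ A ∈ NT n s,
      Function.Injective A ∧ HasB M (Lift^[j] (bas A)))) (fun M hM => (mem_filter.1 hM).2)
    have h5 := card_union_le ((univ : Finset (Fin s → Fin (n + 1))).biUnion (fun c =>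
        U.filter (fun M => ∃ A : Fin s → Finset (Fin n), Typ A ∧
          (∀ i, (A i).card = (c i : ℕ)) ∧ HasB M (pav (s + j) A))))
      (U.filter (fun M => ∃ A ∈ NT n s, Function.Injective A ∧
        HasB M (Lift^[j] (bas A))))
    have h6 : ((U.filter (fun M => ∃ A ∈ NT n s, Function.Injective A ∧
        HasB M (Lift^[j] (bas A)))).card : ℝ) ≤ ((NT n s).card : ℝ) / s.factorial := by
      rw [le_div_iff₀ (by exact_mod_cast s.factorial_pos)]
      exact_mod_cast h4
    refine (show _ ≤ ((_ : ℕ) : ℝ) from Nat.cast_le.2 h5).trans ?_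
    push_cast
    apply add_le_add _ h6
    exact_mod_cast h2
  have h7 : (U.card : ℝ) ≤ ∑ s ∈ range (n + 1), ∑ j ∈ range (n + 1),
      (((n : ℝ) + 1) ^ n * n.factorial + ((NT n s).card : ℝ) / s.factorial) := by
    refine (show _ ≤ ((_ : ℕ) : ℝ) from Nat.cast_le.2
      ((card_le_card hcov).trans card_biUnion_le)).trans ?_
    push_cast
    apply sum_le_sum
    intro s hs
    refine (show _ ≤ ((_ : ℕ) : ℝ) from Nat.cast_le.2 card_biUnion_le).trans ?_
    push_cast
    apply sum_le_sum
    intro j hj
    exact h1 s hs j hj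
  refine h7.trans (le_of_eq ?_)
  simp only [sum_const, card_range, nsmul_eq_mul, mul_add, sum_add_distrib]
  rw [mul_sum]
  push_cast
  ring

open Classical in
/-- Lower bound for the number of transversal matroids. -/
theorem lower_count (hs : 2 ≤ s) (hsn : s ≤ n) :
    ((TY n s).card : ℝ) / s.factorial ≤
      ((univ.filter (fun M : Matroid (Fin n) => IsTransversal M)).card : ℝ) := by
  rw [div_le_iff₀ (by exact_mod_cast s.factorial_pos)]
  have hex : ∀ A : Fin s → Finset (Fin n), ∃ M : Matroid (Fin n), A ∈ TY n s →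
      IsTransversal M ∧ HasB M (pav s A) := by
    intro A
    by_cases hA : A ∈ TY n s
    · have hA' := hA
      unfold TY AL at hA'
      rw [mem_filter, mem_filter] at hA'
      obtain ⟨M, hM⟩ := exists_typM A hA'.2 (by
        intro i
        by_contra hne
        rw [not_nonempty_iff_eq_empty] at hne
        obtain ⟨j, hj⟩ : ∃ j : Fin s, j ≠ i := by
          have : Nontrivial (Fin s) := Fin.nontrivial_iff_two_le.2 hs
          exact exists_ne i
        have h1 := hA'.2 {i, j} (by rw [card_pair hj.symm])
        rw [card_pair hj.symm, Fintype.card_fin, biUnion_insert, singleton_biUnion, hne,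
          empty_union] at h1
        have := hA'.1.2 j
        omega) (by omega) hsn
      exact ⟨M, fun _ => hM⟩
    · exact ⟨(Matroid.emptyOn (Fin n)), fun h => absurd h hA⟩
  choose f hf using hex
  have h1 : (TY n s).card ≤ s.factorial * ((TY n s).image f).card := by
    apply card_le_mul_card_image
    intro M hM
    rw [mem_image] at hM
    obtain ⟨A, hA, rfl⟩ := hM
    have h2 : (Finset.univ : Finset (Equiv.Perm (Fin s))).card = s.factorial := by
      rw [card_univ, Fintype.card_perm, Fintype.card_fin]
    rw [← h2]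
    have hsub : (TY n s).filter (fun A' => f A' = f A) ⊆
        (Finset.univ : Finset (Equiv.Perm (Fin s))).image (fun σ => fun i => A (σ i)) := by
      intro A' hA'
      rw [mem_filter] at hA'
      obtain ⟨-, hB⟩ := hf A hA
      obtain ⟨-, hB'⟩ := hf A' hA'.1
      rw [hA'.2] at hB'
      have h3 : pav s A' = pav s A := by
        ext B
        rw [← hB.2, ← hB'.2]
      have hA1 := hA
      have hA2 := hA'.1
      unfold TY AL at hA1 hA2
      rw [mem_filter, mem_filter] at hA1 hA2
      obtain ⟨σ, hσ⟩ := typ_unique A' A hA2.2 hA1.2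
        (by rw [Fintype.card_fin]; exact hA2.1.2) (by rw [Fintype.card_fin]; exact hA1.1.2) h3
      rw [mem_image]
      exact ⟨σ, mem_univ _, funext hσ⟩
    exact (card_le_card hsub).trans card_image_le
  have h4 : ((TY n s).image f).card
      ≤ (univ.filter (fun M : Matroid (Fin n) => IsTransversal M)).card := by
    apply card_le_card
    intro M hM
    rw [mem_image] at hM
    obtain ⟨A, hA, rfl⟩ := hM
    rw [mem_filter]
    exact ⟨mem_univ _, (hf A hA).1⟩
  have h5 : (TY n s).card ≤
      (univ.filter (fun M : Matroid (Fin n) => IsTransversal M)).card * s.factorial := by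
    rw [mul_comm]
    exact h1.trans (Nat.mul_le_mul_left _ h4)
  exact_mod_cast h5

end

end Pool.Agent.Helper46.T
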