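import Pool.Agent.Helper46.T.Tutte

set_option autoImplicit false
set_option linter.unusedSectionVars false

namespace Pool.Agent.Helper46.T

/-- Partial transversals of a family of sets. -/
def IsPartialTransversal {n m : ℕ} (A : Fin m → Set (Fin n)) (I : Set (Fin n)) : Prop :=
  ∃ f : I → Fin m, Function.Injective f ∧ ∀ x : I, (x : Fin n) ∈ A (f x)

/-- Transversal matroids on `Fin n`. -/
def IsTransversal {n : ℕ} (M : Matroid (Fin n)) : Prop :=
  M.E = Set.univ ∧ ∃ (m : ℕ) (A : Fin m → Set (Fin n)),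
    ∀ I : Set (Fin n), M.Indep I ↔ IsPartialTransversal A I

/-- The rank of a set. -/
noncomputable def rk {n : ℕ} (M : Matroid (Fin n)) (X : Set (Fin n)) : ℕ := (M.eRk X).toNat

/-- The Tutte polynomial. -/
noncomputable def tutte {n : ℕ} (M : Matroid (Fin n)) : MvPolynomial (Fin 2) ℤ :=
  ∑ X : Finset (Fin n),
    (MvPolynomial.X 0 - 1) ^ (rk M Set.univ - rk M (X : Set (Fin n))) *
      (MvPolynomial.X 1 - 1) ^ (X.card - rk M (X : Set (Fin n)))

/-- Tutte uniqueness among all finite matroids. -/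
def TutteUnique {n : ℕ} (M : Matroid (Fin n)) : Prop :=
  ∀ (k : ℕ) (N : Matroid (Fin k)), N.E = Set.univ → tutte N = tutte M →
    ∃ e : Fin k ≃ Fin n, ∀ I : Set (Fin k), N.Indep I ↔ M.Indep (e '' I)

open Finset

instance finite_matroid {n : ℕ} : Finite (Matroid (Fin n)) := by
  apply Finite.of_injective (fun M : Matroid (Fin n) => (M.E, {I : Set (Fin n) | M.Indep I}))
  intro M N h
  rw [Prod.mk.injEq] at h
  apply Matroid.ext_indep h.1
  intro I _
  exact (Set.ext_iff.1 h.2) I

section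

variable {n : ℕ} [Nonempty (Fin n)]

theorem ipt_iff {m : ℕ} (A : Fin m → Finset (Fin n)) (I : Finset (Fin n)) :
    IsPartialTransversal (fun j => (A j : Set (Fin n))) (I : Set (Fin n)) ↔ PT A I := by
  classical
  constructor
  · rintro ⟨f, hf, hfA⟩
    exact pt_of_inj A I f hf (fun x => by exact_mod_cast hfA x)
  · rintro ⟨K, g, hg, hgA, hI⟩
    have h1 : ∀ x : (I : Set (Fin n)), ∃ j ∈ K, g j = x := by
      rintro ⟨x, hx⟩
      rw [mem_coe, ← hI, mem_image] at hx
      exact hx
    choose f hf1 hf2 using h1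
    refine ⟨f, ?_, ?_⟩
    · intro x y hxy
      apply Subtype.ext
      rw [← hf2 x, ← hf2 y, hxy]
    · intro x
      have h2 := hgA _ (hf1 x)
      rw [hf2 x] at h2
      exact h2

theorem trans_finset (M : Matroid (Fin n)) (hM : IsTransversal M) :
    ∃ (m : ℕ) (A : Fin m → Finset (Fin n)), ∀ I : Finset (Fin n),
      M.Indep (I : Set (Fin n)) ↔ PT A I := by
  classical
  obtain ⟨-, m, A, hA⟩ := hM
  refine ⟨m, fun j => (Set.toFinite (A j)).toFinset, ?_⟩
  intro I
  rw [hA, ← ipt_iff]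
  simp only [Set.Finite.coe_toFinset]

/-- Every transversal matroid is an iterated lift of one with small distinct sets. -/
theorem trans_decomp (M : Matroid (Fin n)) (hM : IsTransversal M) :
    ∃ s j : ℕ, s + j ≤ n ∧ ∃ A : Fin s → Finset (Fin n), Function.Injective A ∧
      (∀ i, (A i).card + s ≤ n) ∧ HasB M (Lift^[j] (bas A)) := by
  classical
  obtain ⟨m, A, hA⟩ := trans_finset M hM
  obtain ⟨B0, hB0⟩ := M.exists_isBase
  have hB0f : B0.Finite := Set.toFinite B0
  set r := hB0f.toFinset.card with hr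
  have hB0' : M.IsBase (hB0f.toFinset : Set (Fin n)) := by
    rw [Set.Finite.coe_toFinset]; exact hB0
  have hcard : ∀ B : Finset (Fin n), M.IsBase (B : Set (Fin n)) → B.card = r := by
    intro B hB
    have := hB.encard_eq_encard_of_isBase hB0'
    rw [Set.encard_coe_eq_coe_finsetCard, Set.encard_coe_eq_coe_finsetCard] at this
    exact_mod_cast this
  have hext : ∀ I : Finset (Fin n), PT A I → ∃ B : Finset (Fin n),
      M.IsBase (B : Set (Fin n)) ∧ I ⊆ B := by
    intro I hI
    obtain ⟨B, hB, hIB⟩ := ((hA I).2 hI).exists_isBase_superset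
    have hBf : B.Finite := Set.toFinite B
    refine ⟨hBf.toFinset, by rw [Set.Finite.coe_toFinset]; exact hB, ?_⟩
    intro x hx
    rw [Set.Finite.mem_toFinset]
    exact hIB hx
  obtain ⟨A', hA', -⟩ := pres_fin A r
    ⟨hB0f.toFinset, (hA _).1 hB0'.indep, rfl⟩ (by
      intro I hI
      obtain ⟨B, hB, hIB⟩ := hext I hI
      rw [← hcard B hB]
      exact card_le_card hIB)
  have hB : HasB M (bas A') := by
    refine ⟨hM.1, ?_⟩
    intro B
    rw [mem_bas_pt, hA']
    constructor
    · intro hB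
      exact ⟨(hA B).1 hB.indep, hcard B hB⟩
    · rintro ⟨h1, h2⟩
      obtain ⟨B', hB', hBB'⟩ := hext B h1
      have h3 : B = B' := eq_of_subset_of_card_le hBB' (by rw [hcard B' hB', h2])
      rw [h3]
      exact hB'
  have hne : (bas A').Nonempty := ⟨hB0f.toFinset, (hB.2 _).1 hB0'⟩
  obtain ⟨s, j, hsj, A'', hinj, hsz, heq⟩ := decomp r A' hne
  have hrn : r ≤ n := by
    rw [hr]
    have := card_le_univ hB0f.toFinset
    rwa [Fintype.card_fin] at this
  refine ⟨s, j, by omega, A'', hinj, ?_, ?_⟩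
  · intro i
    have := hsz i
    rwa [Fintype.card_fin] at this
  · rw [← heq]
    exact hB

/-- The Tutte polynomial of a lifted typical matroid. -/
theorem tutte_eq {s : ℕ} (M : Matroid (Fin n)) (A : Fin s → Finset (Fin n)) (h : Typ A) (r : ℕ)
    (hsr : s ≤ r) (hM : HasB M (pav r A)) :
    tutte M = ∑ X : Finset (Fin n), (fun a b : ℕ =>
      (MvPolynomial.X 0 - 1 : MvPolynomial (Fin 2) ℤ) ^ (r - b) *
        (MvPolynomial.X 1 - 1) ^ (a - b)) X.card (rho r A X) := by
  classical
  have h1 : rk M Set.univ = r := by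
    obtain ⟨B0, hB0⟩ := M.exists_isBase
    have hB0f : B0.Finite := Set.toFinite B0
    have hB0' : hB0f.toFinset ∈ pav r A := by
      rw [← hM.2, Set.Finite.coe_toFinset]
      exact hB0
    rw [rk, Matroid.eRk_univ_eq, ← hB0.encard_eq_eRank, ← hB0f.coe_toFinset,
      Set.encard_coe_eq_coe_finsetCard, ENat.toNat_natCast, ((mem_pav _ _ _).1 hB0').1]
  unfold tutte
  apply sum_congr rfl
  intro X _
  rw [h1, rk, rank_eq M A h r hsr hM X]

theorem tutte_congr {s : ℕ} (M M' : Matroid (Fin n)) (A A' : Fin s → Finset (Fin n)) (h : Typ A)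
    (h' : Typ A') (r : ℕ) (hsr : s ≤ r) (hM : HasB M (pav r A)) (hM' : HasB M' (pav r A'))
    (hc : ∀ i, (A i).card = (A' i).card) : tutte M = tutte M' := by
  rw [tutte_eq M A h r hsr hM, tutte_eq M' A' h' r hsr hM']
  exact sum_rho_congr (fun a b : ℕ =>
      (MvPolynomial.X 0 - 1 : MvPolynomial (Fin 2) ℤ) ^ (r - b) *
        (MvPolynomial.X 1 - 1) ^ (a - b)) A A' h h' r hsr hc

/-- Exchange for typical families. -/
theorem pav_exchange {s : ℕ} (A : Fin s → Finset (Fin n)) (h : Typ A) (B B' : Finset (Fin n))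
    (hB : B ∈ pav s A) (hB' : B' ∈ pav s A) (a : Fin n) (ha : a ∈ B) (ha' : a ∉ B') :
    ∃ b ∈ B', b ∉ B ∧ insert b (B.erase a) ∈ pav s A := by
  rw [mem_pav] at hB hB'
  have hs : 0 < B.card := card_pos.2 ⟨a, ha⟩
  by_cases hd : ∃ i, Disjoint (B.erase a) (A i)
  · obtain ⟨i, hi⟩ := hd
    have h1 := hB'.2 i
    rw [not_disjoint_iff] at h1
    obtain ⟨b, hbB', hbA⟩ := h1
    have hbB : b ∉ B := by
      intro hb
      have hba : b ≠ a := fun h => ha' (h ▸ hbB')
      exact (disjoint_left.1 hi) (mem_erase.2 ⟨hba, hb⟩) hbA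
    refine ⟨b, hbB', hbB, ?_⟩
    rw [mem_pav, card_insert_of_notMem (fun h => hbB (mem_erase.1 h).2), card_erase_of_mem ha]
    refine ⟨by omega, ?_⟩
    intro l hl
    by_cases hli : l = i
    · subst hli
      exact (disjoint_left.1 hl) (mem_insert_self _ _) hbA
    · have := h.inter hli (B.erase a) (hl.mono_left (subset_insert _ _)) hi
      rw [card_erase_of_mem ha] at this
      omega
  · push Not at hd
    obtain ⟨b, hb⟩ : (B' \ B).Nonempty := by
      rw [sdiff_nonempty]
      intro hsub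
      have h2 := eq_of_subset_of_card_le hsub (by omega)
      rw [h2] at ha'
      exact ha' ha
    rw [mem_sdiff] at hb
    refine ⟨b, hb.1, hb.2, ?_⟩
    rw [mem_pav, card_insert_of_notMem (fun h => hb.2 (mem_erase.1 h).2), card_erase_of_mem ha]
    refine ⟨by omega, ?_⟩
    intro l hl
    exact hd l (hl.mono_left (subset_insert _ _))

theorem exists_typM {s : ℕ} (A : Fin s → Finset (Fin n)) (h : Typ A)
    (hne : ∀ i, (A i).Nonempty) (hs1 : 0 < s) (hs : s ≤ n) :
    ∃ M : Matroid (Fin n), IsTransversal M ∧ HasB M (pav s A) := by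
  classical
  have hfull : ∀ J : Finset (Fin n), J.card < s → ∃ B ∈ pav s A, J ⊆ B := by
    intro J hJ
    obtain ⟨B, hB, hJB, -⟩ := exists_complete A h s le_rfl univ J (subset_univ _) hJ
      (by rw [card_univ, Fintype.card_fin]; exact hs) (by
        intro i hd
        obtain ⟨e, he⟩ := hne i
        exact (disjoint_left.1 hd) (mem_univ e) he)
    exact ⟨B, hB, hJB⟩
  let M : Matroid (Fin n) := Matroid.ofIsBaseOfFinite (E := Set.univ) (Set.finite_univ)
    (fun B => ∃ B' ∈ pav s A, (B' : Set (Fin n)) = B)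
    (by
      obtain ⟨B, hB, -⟩ := hfull ∅ (by rw [card_empty]; exact hs1)
      exact ⟨B, B, hB, rfl⟩)
    (by
      rintro X Y ⟨B, hB, rfl⟩ ⟨B', hB', rfl⟩ a ⟨ha, ha'⟩
      obtain ⟨b, hb, hb2, hb3⟩ := pav_exchange A h B B' hB hB' a (by exact_mod_cast ha)
        (by exact_mod_cast ha')
      refine ⟨b, ⟨by exact_mod_cast hb, by exact_mod_cast hb2⟩, _, hb3, ?_⟩
      rw [coe_insert, coe_erase])
    (fun _ _ => Set.subset_univ _)
  have hHB : HasB M (pav s A) := by
    refine ⟨rfl, ?_⟩
    intro B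
    change (∃ B' ∈ pav s A, (B' : Set (Fin n)) = B) ↔ _
    constructor
    · rintro ⟨B', hB', hBB⟩
      rw [← coe_injective hBB]
      exact hB'
    · intro hB
      exact ⟨B, hB, rfl⟩
  refine ⟨M, ⟨rfl, s, fun j => (A j : Set (Fin n)), ?_⟩, hHB⟩
  intro I
  have hIf : I.Finite := Set.toFinite I
  rw [← hIf.coe_toFinset, ipt_iff]
  set J := hIf.toFinset
  constructor
  · intro hJ
    obtain ⟨B, hB, hJB⟩ := hJ.exists_isBase_superset
    have hBf : B.Finite := Set.toFinite B
    rw [← hBf.coe_toFinset] at hB hJB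
    rw [hHB.2, ← bas_typ A h, mem_bas] at hB
    obtain ⟨g, hg, hgA, hgB⟩ := hB
    refine ⟨univ.filter (fun j => g j ∈ J), g, hg.injOn, fun j _ => hgA j, ?_⟩
    ext x
    rw [mem_image]
    constructor
    · rintro ⟨j, hj, rfl⟩
      exact (mem_filter.1 hj).2
    · intro hx
      have h3 : x ∈ univ.image g := by
        rw [hgB]
        exact_mod_cast hJB hx
      rw [mem_image] at h3
      obtain ⟨j, -, rfl⟩ := h3
      exact ⟨j, mem_filter.2 ⟨mem_univ _, hx⟩, rfl⟩
  · intro hJ
    have hJs : J.card ≤ s := by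
      obtain ⟨K, g, hg, -, hK⟩ := hJ
      rw [← hK]
      refine card_image_le.trans ?_
      have := card_le_univ K
      rwa [Fintype.card_fin] at this
    rcases Nat.lt_or_ge J.card s with h1 | h1
    · obtain ⟨B, hB, hJB⟩ := hfull J h1
      exact ((hHB.2 B).2 hB).indep.subset (by exact_mod_cast hJB)
    · have h2 : J ∈ bas A := by
        rw [mem_bas_pt]
        exact ⟨hJ, by omega⟩
      rw [bas_typ A h] at h2
      exact ((hHB.2 J).2 h2).indep

end

end Pool.Agent.Helper46.T
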