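import Pool.Agent.Helper46.T.Count

set_option autoImplicit false
set_option linter.unusedSectionVars false

namespace Pool.Agent.Helper46.T

open Finset

/-- Number of subsets of size at most `m` of a set of size `a`. -/
def FF (a m : ℕ) : ℕ := ∑ j ∈ range (m + 1), a.choose j

variable {n s : ℕ}

/-- Small subsets of `Y`. -/
def smalls (m : ℕ) (Y : Finset (Fin n)) : Finset (Finset (Fin n)) :=
  Y.powerset.filter (fun A => A.card ≤ m)

theorem card_smalls (m : ℕ) (Y : Finset (Fin n)) : (smalls m Y).card = FF Y.card m := by
  unfold smalls FF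
  rw [card_eq_sum_card_fiberwise (f := fun A : Finset (Fin n) => A.card) (t := range (m + 1))]
  · apply sum_congr rfl
    intro j hj
    rw [mem_range] at hj
    rw [← card_powersetCard]
    congr 1
    ext A
    rw [mem_filter, mem_filter, mem_powerset, mem_powersetCard]
    constructor
    · rintro ⟨⟨h1, -⟩, h2⟩
      exact ⟨h1, h2⟩
    · rintro ⟨h1, h2⟩
      exact ⟨⟨h1, by omega⟩, h2⟩
  · intro A hA
    rw [mem_coe, mem_filter] at hA
    rw [mem_coe, mem_range]
    have := hA.2
    change A.card < m + 1
    omega

theorem card_AL (hs : s ≤ n) : (AL n s).card = FF n (n - s) ^ s := by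
  classical
  have h1 : AL n s = Fintype.piFinset (fun _ : Fin s => smalls (n - s) (univ : Finset (Fin n))) := by
    ext A
    unfold AL smalls
    rw [mem_filter, Fintype.mem_piFinset]
    constructor
    · rintro ⟨-, h⟩ i
      rw [mem_filter, mem_powerset]
      have := h i
      exact ⟨subset_univ _, by omega⟩
    · intro h
      refine ⟨mem_univ _, ?_⟩
      intro i
      have := h i
      rw [mem_filter] at this
      omega
  rw [h1, Fintype.card_piFinset, prod_const, card_smalls, card_univ, card_univ, Fintype.card_fin,
    Fintype.card_fin]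

theorem card_NT (hs : s ≤ n) : (NT n s).card ≤
    ∑ k ∈ Icc 2 s, s.choose k * (n.choose (s + 1 - k) *
      (FF (n - (s + 1 - k)) (n - s) ^ k * FF n (n - s) ^ (s - k))) := by
  classical
  have hcov : NT n s ⊆ (Icc 2 s).biUnion (fun k =>
      (powersetCard k (univ : Finset (Fin s))).biUnion (fun I =>
        (powersetCard (s + 1 - k) (univ : Finset (Fin n))).biUnion (fun X =>
          Fintype.piFinset (fun i : Fin s => if i ∈ I then smalls (n - s) Xᶜ
            else smalls (n - s) univ)))) := by
    intro A hA
    unfold NT AL at hA
    rw [mem_filter, mem_filter] at hA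
    obtain ⟨⟨-, hsz⟩, hT⟩ := hA
    unfold Typ at hT
    push Not at hT
    obtain ⟨I, hI2, hI⟩ := hT
    rw [Fintype.card_fin] at hI
    have hIs : I.card ≤ s := by
      have := card_le_univ I
      rwa [Fintype.card_fin] at this
    have h1 := card_compl (I.biUnion A)
    rw [Fintype.card_fin] at h1
    obtain ⟨X, hX, hXc⟩ := exists_subset_card_eq (s := (I.biUnion A)ᶜ) (n := s + 1 - I.card)
      (by omega)
    rw [mem_biUnion]
    refine ⟨I.card, by rw [mem_Icc]; exact ⟨hI2, hIs⟩, ?_⟩
    rw [mem_biUnion]
    refine ⟨I, by rw [mem_powersetCard]; exact ⟨subset_univ _, rfl⟩, ?_⟩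
    rw [mem_biUnion]
    refine ⟨X, by rw [mem_powersetCard]; exact ⟨subset_univ _, hXc⟩, ?_⟩
    rw [Fintype.mem_piFinset]
    intro i
    have h2 := hsz i
    split_ifs with hi
    · unfold smalls
      rw [mem_filter, mem_powerset]
      refine ⟨?_, by omega⟩
      intro x hx
      rw [mem_compl]
      intro hxX
      have h3 := hX hxX
      rw [mem_compl, mem_biUnion] at h3
      exact h3 ⟨i, hi, hx⟩
    · unfold smalls
      rw [mem_filter, mem_powerset]
      exact ⟨subset_univ _, by omega⟩
  refine (card_le_card hcov).trans (card_biUnion_le.trans ?_)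
  apply sum_le_sum
  intro k hk
  rw [mem_Icc] at hk
  refine card_biUnion_le.trans ?_
  have h1 : ∀ I ∈ powersetCard k (univ : Finset (Fin s)),
      ((powersetCard (s + 1 - k) (univ : Finset (Fin n))).biUnion (fun X =>
          Fintype.piFinset (fun i : Fin s => if i ∈ I then smalls (n - s) Xᶜ
            else smalls (n - s) univ))).card ≤ n.choose (s + 1 - k) *
      (FF (n - (s + 1 - k)) (n - s) ^ k * FF n (n - s) ^ (s - k)) := by
    intro I hI
    rw [mem_powersetCard] at hI
    refine card_biUnion_le.trans ?_
    have h2 : ∀ X ∈ powersetCard (s + 1 - k) (univ : Finset (Fin n)),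
        (Fintype.piFinset (fun i : Fin s => if i ∈ I then smalls (n - s) Xᶜ
            else smalls (n - s) univ)).card =
        FF (n - (s + 1 - k)) (n - s) ^ k * FF n (n - s) ^ (s - k) := by
      intro X hX
      rw [mem_powersetCard] at hX
      rw [Fintype.card_piFinset]
      have h3 : ∀ i : Fin s, (if i ∈ I then smalls (n - s) Xᶜ
            else smalls (n - s) univ).card = if i ∈ I then FF (n - (s + 1 - k)) (n - s)
            else FF n (n - s) := by
        intro i
        split_ifs
        · rw [card_smalls, card_compl, Fintype.card_fin, hX.2]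
        · rw [card_smalls, card_univ, Fintype.card_fin]
      rw [prod_congr rfl (fun i _ => h3 i), prod_ite, prod_const, prod_const]
      have h4 : (univ.filter (fun i : Fin s => i ∈ I)).card = k := by
        rw [← hI.2]
        congr 1
        ext i
        simp
      have h5 : (univ.filter (fun i : Fin s => i ∉ I)).card = s - k := by
        have := card_filter_add_card_filter_not (s := (univ : Finset (Fin s))) (fun i => i ∈ I)
        rw [h4, card_univ, Fintype.card_fin] at this
        omega
      rw [h4, h5]
    rw [sum_congr rfl h2, sum_const, card_powersetCard, card_univ, Fintype.card_fin, smul_eq_mul]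
  refine (sum_le_sum h1).trans ?_
  rw [sum_const, card_powersetCard, card_univ, Fintype.card_fin, smul_eq_mul]

end Pool.Agent.Helper46.T
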