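import Mathlib

set_option autoImplicit false
set_option linter.unusedSectionVars false

namespace Pool.Agent.Helper46.T

open Finset

variable {α ι : Type} [Fintype α] [DecidableEq α] [Nonempty α] [Fintype ι] [DecidableEq ι]

/-- Partial transversals. -/
def PT (A : ι → Finset α) (I : Finset α) : Prop :=
  ∃ (K : Finset ι) (g : ι → α), Set.InjOn g K ∧ (∀ j ∈ K, g j ∈ A j) ∧ K.image g = I

/-- Indices seen by an element. -/
def nb (A : ι → Finset α) (x : α) : Finset ι := univ.filter (fun j => x ∈ A j)

theorem mem_nb (A : ι → Finset α) (x : α) (j : ι) : j ∈ nb A x ↔ x ∈ A j := by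
  simp [nb]

/-- A set of indices saturated by elements of `H` which see only these indices. -/
def Face (A : ι → Finset α) (H : Finset α) (K : Finset ι) : Prop :=
  ∃ g : ι → α, Set.InjOn g K ∧ ∀ j ∈ K, g j ∈ A j ∧ g j ∈ H ∧ nb A (g j) ⊆ K

theorem Face.empty (A : ι → Finset α) (H : Finset α) : Face A H ∅ :=
  ⟨fun _ => Classical.arbitrary α, by simp, by simp⟩

theorem Face.union {A : ι → Finset α} {H : Finset α} {K K' : Finset ι} (h : Face A H K)
    (h' : Face A H K') : Face A H (K ∪ K') := by
  classical
  obtain ⟨g, hg, hg2⟩ := h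
  obtain ⟨g', hg', hg2'⟩ := h'
  refine ⟨fun j => if j ∈ K then g j else g' j, ?_, ?_⟩
  · intro i hi j hj hij
    simp only at hij
    by_cases hiK : i ∈ K <;> by_cases hjK : j ∈ K
    · rw [if_pos hiK, if_pos hjK] at hij
      exact hg hiK hjK hij
    · rw [if_pos hiK, if_neg hjK] at hij
      exfalso
      have hjK' : j ∈ K' := by
        rcases mem_union.1 (mem_coe.1 hj) with h | h
        · exact absurd h hjK
        · exact h
      apply hjK
      apply (hg2 i hiK).2.2
      rw [mem_nb, hij]
      exact (hg2' j hjK').1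
    · rw [if_neg hiK, if_pos hjK] at hij
      exfalso
      have hiK' : i ∈ K' := by
        rcases mem_union.1 (mem_coe.1 hi) with h | h
        · exact absurd h hiK
        · exact h
      apply hiK
      apply (hg2 j hjK).2.2
      rw [mem_nb, ← hij]
      exact (hg2' i hiK').1
    · rw [if_neg hiK, if_neg hjK] at hij
      have hiK' : i ∈ K' := by
        rcases mem_union.1 (mem_coe.1 hi) with h | h
        · exact absurd h hiK
        · exact h
      have hjK' : j ∈ K' := by
        rcases mem_union.1 (mem_coe.1 hj) with h | h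
        · exact absurd h hjK
        · exact h
      exact hg' hiK' hjK' hij
  · intro j hj
    by_cases hjK : j ∈ K
    · simp only [if_pos hjK]
      obtain ⟨h1, h2, h3⟩ := hg2 j hjK
      exact ⟨h1, h2, h3.trans subset_union_left⟩
    · simp only [if_neg hjK]
      have hjK' : j ∈ K' := by
        rcases mem_union.1 hj with h | h
        · exact absurd h hjK
        · exact h
      obtain ⟨h1, h2, h3⟩ := hg2' j hjK'
      exact ⟨h1, h2, h3.trans subset_union_right⟩

theorem Face.biUnion {β : Type} [DecidableEq β] {A : ι → Finset α} {H : Finset α} (s : Finset β)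
    (K : β → Finset ι) (h : ∀ b ∈ s, Face A H (K b)) : Face A H (s.biUnion K) := by
  induction s using Finset.induction_on with
  | empty => rw [biUnion_empty]; exact Face.empty A H
  | insert b s hb ih =>
    rw [biUnion_insert]
    exact (h b (mem_insert_self b s)).union (ih (fun c hc => h c (mem_insert_of_mem hc)))

/-- Matching from elements to indices gives a partial transversal. -/
theorem pt_of_inj (A : ι → Finset α) (I : Finset α) (f : {x // x ∈ I} → ι)
    (hf : Function.Injective f) (hfA : ∀ x, (x : α) ∈ A (f x)) : PT A I := by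
  classical
  refine ⟨univ.image f, fun j => if h : ∃ x, f x = j then (h.choose : α) else
    Classical.arbitrary α, ?_, ?_, ?_⟩
  · intro i hi j hj hij
    rw [mem_coe, mem_image] at hi hj
    obtain ⟨x, -, rfl⟩ := hi
    obtain ⟨y, -, rfl⟩ := hj
    have h1 : ∃ z, f z = f x := ⟨x, rfl⟩
    have h2 : ∃ z, f z = f y := ⟨y, rfl⟩
    simp only [dif_pos h1, dif_pos h2] at hij
    have h3 := hf h1.choose_spec
    have h4 := hf h2.choose_spec
    rw [h3, h4] at hij
    rw [Subtype.ext hij]
  · intro j hj
    rw [mem_image] at hj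
    obtain ⟨x, -, rfl⟩ := hj
    have h1 : ∃ z, f z = f x := ⟨x, rfl⟩
    simp only [dif_pos h1]
    have h3 := hf h1.choose_spec
    rw [h3]
    exact hfA x
  · ext y
    rw [mem_image]
    constructor
    · rintro ⟨j, hj, rfl⟩
      rw [mem_image] at hj
      obtain ⟨x, -, rfl⟩ := hj
      have h1 : ∃ z, f z = f x := ⟨x, rfl⟩
      simp only [dif_pos h1]
      exact h1.choose.2
    · intro hy
      refine ⟨f ⟨y, hy⟩, mem_image_of_mem _ (mem_univ _), ?_⟩
      have h1 : ∃ z, f z = f ⟨y, hy⟩ := ⟨_, rfl⟩
      simp only [dif_pos h1]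
      have h3 := hf h1.choose_spec
      rw [h3]

/-- Removing the edge `(i, e)`. -/
def del (A : ι → Finset α) (i : ι) (e : α) : ι → Finset α :=
  fun j => if j = i then (A i).erase e else A j

theorem del_subset (A : ι → Finset α) (i : ι) (e : α) (j : ι) : del A i e j ⊆ A j := by
  unfold del
  split_ifs with h
  · rw [h]; exact erase_subset _ _
  · exact Subset.rfl

theorem pt_mono {A A' : ι → Finset α} (h : ∀ j, A' j ⊆ A j) {I : Finset α} (hI : PT A' I) :
    PT A I := by
  obtain ⟨K, g, h1, h2, h3⟩ := hI
  exact ⟨K, g, h1, fun j hj => h j (h2 j hj), h3⟩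

/-- A partial transversal lost by removing an edge produces faces. -/
theorem tight (A : ι → Finset α) (i : ι) (e : α) (I : Finset α) (hI : PT A I)
    (hI' : ¬ PT (del A i e) I) :
    ∃ J : Finset ι, i ∉ J ∧ Face A (A i)ᶜ J ∧ nb A e ⊆ insert i J ∧ Face A univ (insert i J) := by
  classical
  set A' := del A i e with hA'
  have h1 : ¬ ∃ f : {x // x ∈ I} → ι, Function.Injective f ∧
      ∀ x : {x // x ∈ I}, f x ∈ nb A' (x : α) := by
    rintro ⟨f, hf, hf2⟩
    exact hI' (pt_of_inj A' I f hf (fun x => (mem_nb A' _ _).1 (hf2 x)))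
  rw [← Finset.all_card_le_biUnion_card_iff_exists_injective] at h1
  push Not at h1
  obtain ⟨s, hs⟩ := h1
  set D : Finset α := s.map (Function.Embedding.subtype _) with hD
  have hDcard : D.card = s.card := card_map _
  have hDI : D ⊆ I := by
    intro x hx
    rw [hD, mem_map] at hx
    obtain ⟨y, -, rfl⟩ := hx
    exact y.2
  have hbU : ∀ B : ι → Finset α, s.biUnion (fun x => nb B (x : α)) = D.biUnion (nb B) := by
    intro B
    ext j
    simp only [mem_biUnion, hD, mem_map, Function.Embedding.coe_subtype]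
    constructor
    · rintro ⟨x, hx, hj⟩
      exact ⟨x, ⟨x, hx, rfl⟩, hj⟩
    · rintro ⟨x, ⟨y, hy, rfl⟩, hj⟩
      exact ⟨y, hy, hj⟩
  rw [hbU, ← hDcard] at hs
  obtain ⟨K, g, hg, hgA, hKI⟩ := hI
  -- indices matched to D
  set KD := K.filter (fun j => g j ∈ D) with hKD
  have hKDimg : KD.image g = D := by
    ext x
    rw [mem_image]
    constructor
    · rintro ⟨j, hj, rfl⟩
      rw [hKD, mem_filter] at hj
      exact hj.2
    · intro hx
      have : x ∈ K.image g := by rw [hKI]; exact hDI hx
      rw [mem_image] at this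
      obtain ⟨j, hj, rfl⟩ := this
      exact ⟨j, by rw [hKD, mem_filter]; exact ⟨hj, hx⟩, rfl⟩
  have hKDcard : KD.card = D.card := by
    rw [← hKDimg, card_image_of_injOn]
    exact hg.mono (by rw [hKD]; exact_mod_cast filter_subset _ _)
  have hKDsub : KD ⊆ D.biUnion (nb A) := by
    intro j hj
    have hj' := hj
    rw [hKD, mem_filter] at hj
    rw [mem_biUnion]
    exact ⟨g j, hj.2, (mem_nb A _ _).2 (hgA j hj.1)⟩
  have hsub : D.biUnion (nb A) ⊆ insert i (D.biUnion (nb A')) := by
    intro j hj
    rw [mem_biUnion] at hj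
    obtain ⟨x, hx, hj⟩ := hj
    by_cases hji : j = i
    · rw [hji]; exact mem_insert_self _ _
    · apply mem_insert_of_mem
      rw [mem_biUnion]
      refine ⟨x, hx, ?_⟩
      rw [mem_nb] at hj ⊢
      rw [hA', del, if_neg hji]
      exact hj
  have hc1 : (D.biUnion (nb A)).card ≤ (D.biUnion (nb A')).card + 1 :=
    (card_le_card hsub).trans (card_insert_le _ _)
  have hc2 := card_le_card hKDsub
  have hcA : (D.biUnion (nb A)).card = D.card := by omega
  have hcA' : (D.biUnion (nb A')).card + 1 = D.card := by omega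
  have hKDeq : KD = D.biUnion (nb A) := by
    apply eq_of_subset_of_card_le hKDsub
    omega
  have hiN' : i ∉ D.biUnion (nb A') := by
    intro h
    rw [insert_eq_self.2 h] at hsub
    have := card_le_card hsub
    omega
  have hiN : i ∈ D.biUnion (nb A) := by
    by_contra h
    have hsub2 : D.biUnion (nb A) ⊆ D.biUnion (nb A') := by
      intro j hj
      rcases mem_insert.1 (hsub hj) with h2 | h2
      · rw [h2] at hj; exact absurd hj h
      · exact h2
    have := card_le_card hsub2
    omega
  have honly : ∀ x ∈ D, x ∈ A i → x = e := by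
    intro x hx hxi
    by_contra hxe
    apply hiN'
    rw [mem_biUnion]
    refine ⟨x, hx, ?_⟩
    rw [mem_nb, hA', del, if_pos rfl, mem_erase]
    exact ⟨hxe, hxi⟩
  have hiKD : i ∈ KD := by rw [hKDeq]; exact hiN
  have hgi : g i = e := by
    have h2 := hiKD
    rw [hKD, mem_filter] at h2
    exact honly _ h2.2 (hgA i h2.1)
  have heD : e ∈ D := by
    have h2 := hiKD
    rw [hKD, mem_filter] at h2
    rw [← hgi]; exact h2.2
  have hinj : Set.InjOn g KD := hg.mono (by rw [hKD]; exact_mod_cast filter_subset _ _)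
  -- neighbourhood of the other elements avoids i
  have hother : ∀ x ∈ D, x ≠ e → nb A x ⊆ KD.erase i := by
    intro x hx hxe j hj
    rw [mem_erase]
    constructor
    · intro hji
      rw [mem_nb, hji] at hj
      exact hxe (honly x hx hj)
    · rw [hKDeq, mem_biUnion]
      exact ⟨x, hx, hj⟩
  refine ⟨KD.erase i, notMem_erase i KD, ?_, ?_, ?_⟩
  · refine ⟨g, hinj.mono (by exact_mod_cast erase_subset _ _), ?_⟩
    intro j hj
    rw [mem_erase] at hj
    have h2 := hj.2
    rw [hKD, mem_filter] at h2
    have h3 : g j ≠ e := by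
      intro h4
      rw [← hgi] at h4
      exact hj.1 (hinj hj.2 hiKD h4)
    refine ⟨hgA j h2.1, ?_, hother _ h2.2 h3⟩
    rw [mem_compl]
    intro h5
    exact h3 (honly _ h2.2 h5)
  · rw [insert_erase hiKD, hKDeq]
    intro j hj
    rw [mem_biUnion]
    exact ⟨e, heD, hj⟩
  · rw [insert_erase hiKD]
    refine ⟨g, hinj, ?_⟩
    intro j hj
    have h2 := hj
    rw [hKD, mem_filter] at h2
    refine ⟨hgA j h2.1, mem_univ _, ?_⟩
    rw [hKDeq]
    intro l hl
    rw [mem_biUnion]
    exact ⟨g j, h2.2, hl⟩

end Pool.Agent.Helper46.T
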