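import Pool.Agent.Helper46.T.InRange

set_option autoImplicit false
set_option linter.unusedSectionVars false

namespace Pool.Agent.Helper46.T

open Finset Filter

theorem tend (r : ℝ) (h0 : 0 < r) (h1 : r < 1) (c : ℕ) (hc : 0 < c) (d : ℕ) :
    Tendsto (fun n : ℕ => ((n : ℝ) + 1) ^ d * r ^ (n / c)) atTop (nhds 0) := by
  have e1 : Tendsto (fun m : ℕ => ((m : ℝ) + 1) ^ d * r ^ m) atTop (nhds 0) := by
    have e2 := (tendsto_pow_const_mul_const_pow_of_abs_lt_one d
      (show |r| < 1 by rw [abs_of_pos h0]; exact h1)).comp (tendsto_add_atTop_nat 1)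
    have e3 := e2.mul_const r⁻¹
    rw [zero_mul] at e3
    refine e3.congr ?_
    intro m
    simp only [Function.comp_apply, Nat.cast_add, Nat.cast_one]
    rw [pow_succ]
    field_simp
  have e4 : Tendsto (fun n : ℕ => n / c) atTop atTop :=
    tendsto_atTop_atTop.2 (fun b => ⟨b * c, fun a ha => (Nat.le_div_iff_mul_le hc).2 ha⟩)
  have e5 := (e1.comp e4).const_mul ((c : ℝ) ^ d)
  rw [mul_zero] at e5
  refine squeeze_zero (fun n => by positivity) ?_ e5
  intro n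
  simp only [Function.comp_apply]
  rw [← mul_assoc]
  apply mul_le_mul_of_nonneg_right _ (by positivity)
  rw [← mul_pow]
  apply pow_le_pow_left₀ (by positivity)
  have h2 : n + 1 ≤ c * (n / c + 1) := by
    have := Nat.lt_mul_div_succ n hc
    omega
  exact_mod_cast h2

section Main

variable (n : ℕ)

open Classical in
/-- Number of Tutte unique transversal matroids. -/
noncomputable def UU : ℝ :=
  ((univ.filter (fun M : Matroid (Fin n) => IsTransversal M ∧ TutteUnique M)).card : ℝ)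

open Classical in
/-- Number of transversal matroids. -/
noncomputable def TT : ℝ :=
  ((univ.filter (fun M : Matroid (Fin n) => IsTransversal M)).card : ℝ)

/-- The error rate. -/
noncomputable def eps : ℝ := 2 * (n : ℝ) ^ 5 * (7 / 8) ^ (n / 70)

theorem ty_lower (s : ℕ) (hs : s ≤ n) (hA : 5 * (n - s) ≤ 2 * n) (hB : n ≤ 7 * (n - s))
    (hn : 28 ≤ n) (hC : (n : ℝ) ^ 4 * (7 / 8) ^ (n / 70) ≤ 1) (hD : eps n ≤ 1 / 2) :
    ((FF n (n - s) : ℕ) : ℝ) ^ s / s.factorial ≤ 2 * TT n := by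
  have : Nonempty (Fin n) := ⟨⟨0, by omega⟩⟩
  have h1 := in_range n s hs hA hB hn hC
  have h2 := card_TY_add n s
  rw [card_AL hs] at h2
  have h3 : ((TY n s).card : ℝ) + ((NT n s).card : ℝ) = ((FF n (n - s) : ℕ) : ℝ) ^ s := by
    exact_mod_cast h2
  have h4 := lower_count (n := n) (s := s) (by omega) hs
  set P : ℝ := ((FF n (n - s) : ℕ) : ℝ) ^ s with hP
  have hP0 : 0 ≤ P := by positivity
  have h5 : ((NT n s).card : ℝ) ≤ 1 / 2 * P := by
    refine h1.trans ?_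
    exact mul_le_mul_of_nonneg_right hD hP0
  have hf : (0 : ℝ) < (s.factorial : ℝ) := by exact_mod_cast s.factorial_pos
  have h6 : P / s.factorial ≤ 2 * (((TY n s).card : ℝ) / s.factorial) := by
    rw [← mul_div_assoc]
    apply div_le_div_of_nonneg_right _ hf.le
    linarith
  refine h6.trans ?_
  apply mul_le_mul_of_nonneg_left _ (by norm_num)
  exact h4

theorem nt_bound (s : ℕ) (hs : s ≤ n)
    (hn : 28 ≤ n) (hC : (n : ℝ) ^ 4 * (7 / 8) ^ (n / 70) ≤ 1) (hD : eps n ≤ 1 / 2) :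
    ((NT n s).card : ℝ) / s.factorial ≤ 2 * eps n * TT n + 2 ^ (3 * n * n / 5 + 1) := by
  have heps : 0 ≤ eps n := by unfold eps; positivity
  have hT0 : 0 ≤ TT n := Nat.cast_nonneg _
  have hf : (1 : ℝ) ≤ (s.factorial : ℝ) := by exact_mod_cast s.factorial_pos
  by_cases h : 5 * (n - s) ≤ 2 * n ∧ n ≤ 7 * (n - s)
  · have h1 := in_range n s hs h.1 h.2 hn hC
    have h2 := ty_lower n s hs h.1 h.2 hn hC hD
    have h3 : ((NT n s).card : ℝ) / s.factorial ≤
        eps n * (((FF n (n - s) : ℕ) : ℝ) ^ s / s.factorial) := by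
      rw [← mul_div_assoc]
      apply div_le_div_of_nonneg_right _ (by linarith)
      exact h1
    have h4 : eps n * (((FF n (n - s) : ℕ) : ℝ) ^ s / s.factorial) ≤ eps n * (2 * TT n) :=
      mul_le_mul_of_nonneg_left h2 heps
    have h5 : (0 : ℝ) ≤ 2 ^ (3 * n * n / 5 + 1) := by positivity
    linarith
  · have h1 := out_range n s hs h
    have h2 := card_TY_add n s
    rw [card_AL hs] at h2
    have h3 : (NT n s).card ≤ 2 ^ (3 * n * n / 5 + 1) := by omega
    have h4 : ((NT n s).card : ℝ) ≤ 2 ^ (3 * n * n / 5 + 1) := by exact_mod_cast h3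
    have h5 : ((NT n s).card : ℝ) / s.factorial ≤ ((NT n s).card : ℝ) :=
      div_le_self (Nat.cast_nonneg _) hf
    have h6 : 0 ≤ 2 * eps n * TT n := by positivity
    linarith

theorem tt_lower (hn : 70 ≤ n) (hC : (n : ℝ) ^ 4 * (7 / 8) ^ (n / 70) ≤ 1) (hD : eps n ≤ 1 / 2) :
    (2 : ℝ) ^ (61 * (n / 10) * (n / 10)) ≤ 2 * ((n : ℝ) + 1) ^ (2 * n) * TT n := by
  set q := n / 10 with hq
  have hs : 7 * q ≤ n := by omega
  have h1 := ty_lower n (7 * q) hs (by omega) (by omega) (by omega) hC hD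
  have h2 := FF_main n q hq
  have hf : (0 : ℝ) < ((7 * q).factorial : ℝ) := by exact_mod_cast (7 * q).factorial_pos
  rw [div_le_iff₀ hf] at h1
  have h3 : ((7 * q).factorial : ℝ) ≤ ((n : ℝ) + 1) ^ n := by
    have e1 : (7 * q).factorial ≤ (n + 1) ^ n := by
      calc (7 * q).factorial ≤ n.factorial := Nat.factorial_le hs
        _ ≤ n ^ n := Nat.factorial_le_pow n
        _ ≤ (n + 1) ^ n := Nat.pow_le_pow_left (by omega) n
    exact_mod_cast e1
  have h4 : (449 : ℝ) ^ q ≤ ((n : ℝ) + 1) * ((FF n (n - 7 * q) : ℕ) : ℝ) := by exact_mod_cast h2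
  have hn1 : (1 : ℝ) ≤ (n : ℝ) + 1 := by linarith [Nat.cast_nonneg (α := ℝ) n]
  have hT0 : 0 ≤ TT n := Nat.cast_nonneg _
  set P : ℝ := ((FF n (n - 7 * q) : ℕ) : ℝ) with hP
  have hP0 : 0 ≤ P := Nat.cast_nonneg _
  calc (2 : ℝ) ^ (61 * q * q) = ((2 ^ 61) ^ q) ^ q := by rw [← pow_mul, ← pow_mul, mul_assoc]
    _ ≤ ((449 ^ 7) ^ q) ^ q := by
        apply pow_le_pow_left₀ (by positivity)
        exact pow_le_pow_left₀ (by positivity) (by norm_num) q
    _ = (449 ^ q) ^ (7 * q) := by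
        rw [← pow_mul, ← pow_mul, ← pow_mul]
        congr 1
        ring
    _ ≤ (((n : ℝ) + 1) * P) ^ (7 * q) := pow_le_pow_left₀ (by positivity) h4 _
    _ = ((n : ℝ) + 1) ^ (7 * q) * P ^ (7 * q) := mul_pow _ _ _
    _ ≤ ((n : ℝ) + 1) ^ n * (2 * TT n * ((n : ℝ) + 1) ^ n) := by
        apply mul_le_mul
        · exact pow_le_pow_right₀ hn1 hs
        · exact h1.trans (mul_le_mul_of_nonneg_left h3 (by positivity))
        · positivity
        · positivity
    _ = 2 * ((n : ℝ) + 1) ^ (2 * n) * TT n := by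
        rw [two_mul n, pow_add]
        ring

theorem uu_upper (hn : 28 ≤ n) (hC : (n : ℝ) ^ 4 * (7 / 8) ^ (n / 70) ≤ 1)
    (hD : eps n ≤ 1 / 2) :
    UU n ≤ ((n : ℝ) + 1) ^ 2 * (2 * eps n) * TT n +
      ((n : ℝ) + 1) ^ 2 * (2 * ((n : ℝ) + 1) ^ (2 * n) * 2 ^ (3 * n * n / 5 + 1)) := by
  have : Nonempty (Fin n) := ⟨⟨0, by omega⟩⟩
  have h1 := upper_count (n := n)
  have h2 : ∑ s ∈ range (n + 1), ((NT n s).card : ℝ) / s.factorial ≤
      ((n : ℝ) + 1) * (2 * eps n * TT n + 2 ^ (3 * n * n / 5 + 1)) := by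
    have h3 : ∀ s ∈ range (n + 1), ((NT n s).card : ℝ) / s.factorial ≤
        2 * eps n * TT n + 2 ^ (3 * n * n / 5 + 1) := by
      intro s hs
      rw [mem_range] at hs
      exact nt_bound n s (by omega) hn hC hD
    refine (sum_le_sum h3).trans ?_
    rw [sum_const, card_range, nsmul_eq_mul]
    push_cast
    exact le_refl _
  have hn1 : (1 : ℝ) ≤ (n : ℝ) + 1 := by linarith [Nat.cast_nonneg (α := ℝ) n]
  have h4 : (n.factorial : ℝ) ≤ ((n : ℝ) + 1) ^ n := by
    have e1 : n.factorial ≤ (n + 1) ^ n :=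
      (Nat.factorial_le_pow n).trans (Nat.pow_le_pow_left (by omega) n)
    exact_mod_cast e1
  set V : ℝ := 2 ^ (3 * n * n / 5 + 1) with hV
  have hV1 : 1 ≤ V := one_le_pow₀ (by norm_num)
  have h5 : ((n : ℝ) + 1) ^ n * n.factorial ≤ ((n : ℝ) + 1) ^ (2 * n) := by
    rw [two_mul, pow_add]
    exact mul_le_mul_of_nonneg_left h4 (by positivity)
  have hW : (1 : ℝ) ≤ ((n : ℝ) + 1) ^ (2 * n) := one_le_pow₀ hn1
  have h6 : ((n : ℝ) + 1) ^ n * n.factorial + V ≤ 2 * ((n : ℝ) + 1) ^ (2 * n) * V := by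
    set W := ((n : ℝ) + 1) ^ (2 * n)
    nlinarith
  calc UU n ≤ ((n : ℝ) + 1) ^ 2 * (((n : ℝ) + 1) ^ n * n.factorial) +
      ((n : ℝ) + 1) * ∑ s ∈ range (n + 1), ((NT n s).card : ℝ) / s.factorial := h1
    _ ≤ ((n : ℝ) + 1) ^ 2 * (((n : ℝ) + 1) ^ n * n.factorial) +
      ((n : ℝ) + 1) * (((n : ℝ) + 1) * (2 * eps n * TT n + V)) := by
        apply add_le_add_right
        exact mul_le_mul_of_nonneg_left h2 (by positivity)
    _ = ((n : ℝ) + 1) ^ 2 * (2 * eps n) * TT n +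
        ((n : ℝ) + 1) ^ 2 * (((n : ℝ) + 1) ^ n * n.factorial + V) := by ring
    _ ≤ _ := by
        apply add_le_add_right
        exact mul_le_mul_of_nonneg_left h6 (by positivity)

theorem ratio_bound (hn : 70 ≤ n) (hC : (n : ℝ) ^ 4 * (7 / 8) ^ (n / 70) ≤ 1)
    (hD : eps n ≤ 1 / 2)
    (hE : 2 ^ 160 * ((n : ℝ) + 1) ^ 78 * (1 / 2) ^ (n / 10) ≤ 1) :
    UU n / TT n ≤ 4 * (((n : ℝ) + 1) ^ 7 * (7 / 8) ^ (n / 70)) +
      2 ^ 160 * (((n : ℝ) + 1) ^ 78 * (1 / 2) ^ (n / 10)) := by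
  have h1 := uu_upper n (by omega) hC hD
  have h2 := tt_lower n hn hC hD
  have hn1 : (1 : ℝ) ≤ (n : ℝ) + 1 := by linarith [Nat.cast_nonneg (α := ℝ) n]
  have hT0 : 0 ≤ TT n := Nat.cast_nonneg _
  have hT : 0 < TT n := by
    rcases hT0.lt_or_eq with h | h
    · exact h
    · exfalso
      rw [← h, mul_zero] at h2
      have : (0 : ℝ) < 2 ^ (61 * (n / 10) * (n / 10)) := by positivity
      linarith
  rw [div_le_iff₀ hT]
  refine h1.trans ?_
  rw [add_mul]
  apply add_le_add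
  · apply mul_le_mul_of_nonneg_right _ hT.le
    unfold eps
    have e1 : (n : ℝ) ^ 5 ≤ ((n : ℝ) + 1) ^ 5 := pow_le_pow_left₀ (by positivity) (by linarith) 5
    calc ((n : ℝ) + 1) ^ 2 * (2 * (2 * (n : ℝ) ^ 5 * (7 / 8) ^ (n / 70)))
        = 4 * ((((n : ℝ) + 1) ^ 2 * (n : ℝ) ^ 5) * (7 / 8) ^ (n / 70)) := by ring
      _ ≤ 4 * ((((n : ℝ) + 1) ^ 2 * ((n : ℝ) + 1) ^ 5) * (7 / 8) ^ (n / 70)) := by
          apply mul_le_mul_of_nonneg_left _ (by norm_num)
          apply mul_le_mul_of_nonneg_right _ (by positivity)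
          exact mul_le_mul_of_nonneg_left e1 (by positivity)
      _ = _ := by ring
  · set q := n / 10 with hq
    have hq1 : 1 ≤ q := by omega
    set B : ℝ := 2 ^ 160 * ((n : ℝ) + 1) ^ 78 * (1 / 2) ^ q with hB
    have hB0 : 0 ≤ B := by positivity
    have hBq : B ^ q ≤ B := pow_le_of_le_one hB0 hE (by omega)
    have e0 : 2 ^ 160 * (((n : ℝ) + 1) ^ 78 * (1 / 2) ^ q) = B := by rw [hB]; ring
    rw [e0]
    have e1 : 3 * n * n / 5 + 1 ≤ 60 * q * q + 108 * q + 50 := by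
      have : n ≤ 10 * q + 9 := by omega
      have h3 : 3 * n * n ≤ 3 * (10 * q + 9) * (10 * q + 9) := by nlinarith
      have h4 : 3 * (10 * q + 9) * (10 * q + 9) = 5 * (60 * q * q + 108 * q) + 243 := by ring
      omega
    have e2 : (2 : ℝ) ^ (3 * n * n / 5 + 1) ≤ 2 ^ (60 * q * q + 108 * q + 50) :=
      pow_le_pow_right₀ (by norm_num) e1
    have e3 : ((n : ℝ) + 1) ^ 2 * ((n : ℝ) + 1) ^ (2 * n) * ((n : ℝ) + 1) ^ (2 * n)
        ≤ (((n : ℝ) + 1) ^ 78) ^ q := by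
      rw [← pow_add, ← pow_add, ← pow_mul]
      exact pow_le_pow_right₀ hn1 (by omega)
    have e4 : (4 : ℝ) * 2 ^ (60 * q * q + 108 * q + 50) ≤
        (2 ^ 160) ^ q * (1 / 2) ^ (q * q) * 2 ^ (61 * q * q) := by
      have h5 : (1 / 2 : ℝ) ^ (q * q) * 2 ^ (61 * q * q) = 2 ^ (60 * q * q) := by
        have : 61 * q * q = q * q + 60 * q * q := by ring
        rw [this, pow_add, ← mul_assoc, ← mul_pow]
        norm_num
      rw [mul_assoc (((2 : ℝ) ^ 160) ^ q) _ _, h5, ← pow_mul, ← pow_add]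
      have h6 : (4 : ℝ) = 2 ^ 2 := by norm_num
      rw [h6, ← pow_add]
      apply pow_le_pow_right₀ (by norm_num)
      omega
    calc ((n : ℝ) + 1) ^ 2 * (2 * ((n : ℝ) + 1) ^ (2 * n) * 2 ^ (3 * n * n / 5 + 1))
        ≤ ((n : ℝ) + 1) ^ 2 * (2 * ((n : ℝ) + 1) ^ (2 * n) *
          2 ^ (60 * q * q + 108 * q + 50)) := by
          apply mul_le_mul_of_nonneg_left _ (by positivity)
          exact mul_le_mul_of_nonneg_left e2 (by positivity)
      _ = (((n : ℝ) + 1) ^ 2 * ((n : ℝ) + 1) ^ (2 * n)) * (1 / 2) *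
          (4 * 2 ^ (60 * q * q + 108 * q + 50)) := by ring
      _ ≤ (((n : ℝ) + 1) ^ 2 * ((n : ℝ) + 1) ^ (2 * n)) * (1 / 2) *
          ((2 ^ 160) ^ q * (1 / 2) ^ (q * q) * 2 ^ (61 * q * q)) := by
          exact mul_le_mul_of_nonneg_left e4 (by positivity)
      _ ≤ (((n : ℝ) + 1) ^ 2 * ((n : ℝ) + 1) ^ (2 * n)) * (1 / 2) *
          ((2 ^ 160) ^ q * (1 / 2) ^ (q * q) * (2 * ((n : ℝ) + 1) ^ (2 * n) * TT n)) := by
          apply mul_le_mul_of_nonneg_left _ (by positivity)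
          exact mul_le_mul_of_nonneg_left h2 (by positivity)
      _ = (((n : ℝ) + 1) ^ 2 * ((n : ℝ) + 1) ^ (2 * n) * ((n : ℝ) + 1) ^ (2 * n)) *
          ((2 ^ 160) ^ q * (1 / 2) ^ (q * q)) * TT n := by ring
      _ ≤ ((((n : ℝ) + 1) ^ 78) ^ q) * ((2 ^ 160) ^ q * (1 / 2) ^ (q * q)) * TT n := by
          apply mul_le_mul_of_nonneg_right _ hT.le
          exact mul_le_mul_of_nonneg_right e3 (by positivity)
      _ = B ^ q * TT n := by
          rw [hB, mul_pow, mul_pow, ← pow_mul (1 / 2 : ℝ) q q]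
          ring
      _ ≤ B * TT n := mul_le_mul_of_nonneg_right hBq hT.le

end Main

theorem main_tendsto : Tendsto (fun n : ℕ => UU n / TT n) atTop (nhds 0) := by
  have t1 := (tend (7 / 8) (by norm_num) (by norm_num) 70 (by norm_num) 7).const_mul 4
  have t2 := (tend (1 / 2) (by norm_num) (by norm_num) 10 (by norm_num) 78).const_mul (2 ^ 160)
  have t3 := t1.add t2
  rw [mul_zero, mul_zero, add_zero] at t3
  have c1 := (tend (7 / 8) (by norm_num) (by norm_num) 70 (by norm_num) 4).eventually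
    (eventually_le_nhds (show (0 : ℝ) < 1 by norm_num))
  have c2 := ((tend (7 / 8) (by norm_num) (by norm_num) 70 (by norm_num) 5).const_mul 2)
  rw [mul_zero] at c2
  have c2' := c2.eventually (eventually_le_nhds (show (0 : ℝ) < 1 / 2 by norm_num))
  rw [mul_zero] at t2
  have c3 := t2.eventually (eventually_le_nhds (show (0 : ℝ) < 1 by norm_num))
  refine squeeze_zero' ?_ ?_ t3
  · filter_upwards with n
    unfold UU TT
    positivity
  · filter_upwards [c1, c2', c3, eventually_ge_atTop 70] with n h1 h2 h3 h4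
    apply ratio_bound n h4
    · refine le_trans ?_ h1
      apply mul_le_mul_of_nonneg_right _ (by positivity)
      exact pow_le_pow_left₀ (by positivity) (by linarith) 4
    · refine le_trans ?_ h2
      unfold eps
      rw [mul_assoc]
      apply mul_le_mul_of_nonneg_left _ (by norm_num)
      apply mul_le_mul_of_nonneg_right _ (by positivity)
      exact pow_le_pow_left₀ (by positivity) (by linarith) 5
    · rw [mul_assoc]
      exact h3

end Pool.Agent.Helper46.T
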