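import Pool.Agent.Helper46.T.Num

set_option autoImplicit false
set_option linter.unusedSectionVars false

namespace Pool.Agent.Helper46.T

open Finset

theorem choose_le_pow' (a b : ℕ) : a.choose b ≤ a ^ b := by
  have h := choose_shift a 0 b
  rw [Nat.zero_add, Nat.choose_zero_right, mul_one] at h
  exact h

/-- Few large intersections. -/
theorem regA (n s k : ℕ) (hs : s ≤ n) (hA : 5 * (n - s) ≤ 2 * n) (hB : n ≤ 7 * (n - s))
    (hn : 28 ≤ n) (hk2 : 2 ≤ k) (hks : k ≤ s) (hk : k - 1 ≤ (n - s) / 10)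
    (hC : (n : ℝ) ^ 3 * (1 / 2) ^ (n / 70) ≤ 1) :
    ((s.choose k * (n.choose (s + 1 - k) *
      (FF (n - (s + 1 - k)) (n - s) ^ k * FF n (n - s) ^ (s - k))) : ℕ) : ℝ) ≤
      (n : ℝ) ^ 4 * (1 / 2) ^ (n / 70) * ((FF n (n - s) : ℕ) : ℝ) ^ s := by
  obtain ⟨l, rfl⟩ : ∃ l, k = l + 1 := ⟨k - 1, by omega⟩
  set m := n - s with hm
  have hx : n - (s + 1 - (l + 1)) = m + l := by omega
  rw [hx]
  have hm4 : 4 ≤ m := by omega
  have h1 : s.choose (l + 1) ≤ n ^ (l + 1) :=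
    (choose_le_pow' _ _).trans (Nat.pow_le_pow_left hs _)
  have h2 : n.choose (s + 1 - (l + 1)) ≤ n ^ l * FF n m := by
    have e1 : n.choose (s + 1 - (l + 1)) = n.choose (m + l) := by
      rw [← Nat.choose_symm (show s + 1 - (l + 1) ≤ n by omega), hx]
    rw [e1]
    exact (choose_shift n m l).trans (Nat.mul_le_mul_left _ (choose_le_FF n m m le_rfl))
  have h3 : FF (m + l) m ≤ 2 ^ (m + l) := FF_le_two_pow _ _
  have h4 : 5 ^ m ≤ n * FF n m := by
    have := choose_lower n m hm4 hA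
    calc 5 ^ m ≤ n.choose m * m := this
      _ ≤ FF n m * n := Nat.mul_le_mul (choose_le_FF n m m le_rfl) (by omega)
      _ = _ := mul_comm _ _
  set N := FF n m with hN
  have h5 : s.choose (l + 1) * (n.choose (s + 1 - (l + 1)) *
      (FF (m + l) m ^ (l + 1) * N ^ (s - (l + 1)))) ≤
      n ^ (2 * l + 1) * (2 ^ (m + l)) ^ (l + 1) * N ^ (s - l) := by
    calc s.choose (l + 1) * (n.choose (s + 1 - (l + 1)) *
      (FF (m + l) m ^ (l + 1) * N ^ (s - (l + 1))))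
        ≤ n ^ (l + 1) * ((n ^ l * N) * ((2 ^ (m + l)) ^ (l + 1) * N ^ (s - (l + 1)))) := by
          apply Nat.mul_le_mul h1
          apply Nat.mul_le_mul h2
          exact Nat.mul_le_mul_right _ (Nat.pow_le_pow_left h3 _)
      _ = (n ^ (l + 1) * n ^ l) * (2 ^ (m + l)) ^ (l + 1) * (N ^ (s - (l + 1)) * N) := by ring
      _ = n ^ (2 * l + 1) * (2 ^ (m + l)) ^ (l + 1) * N ^ (s - l) := by
          rw [← pow_add, ← pow_succ]
          congr 2
          · congr 1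
            omega
          · congr 1
            omega
  have hNr : (0 : ℝ) < (N : ℝ) := by exact_mod_cast FF_pos n m
  have h4' : (5 : ℝ) ^ m ≤ n * (N : ℝ) := by exact_mod_cast h4
  have h5' : ((s.choose (l + 1) * (n.choose (s + 1 - (l + 1)) *
      (FF (m + l) m ^ (l + 1) * N ^ (s - (l + 1)))) : ℕ) : ℝ) ≤
      (n : ℝ) ^ (2 * l + 1) * (2 ^ (m + l)) ^ (l + 1) * (N : ℝ) ^ (s - l) := by
    exact_mod_cast h5
  refine h5'.trans ?_
  have hNs : (N : ℝ) ^ s = (N : ℝ) ^ (s - l) * (N : ℝ) ^ l := by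
    rw [← pow_add]
    congr 1
    omega
  -- main numeric estimate
  have hd : (4 : ℝ) ^ (m + l) / 5 ^ m ≤ (1 / 2) ^ (n / 70) := by
    rw [one_div_pow, div_le_div_iff₀ (by positivity) (by positivity), one_mul]
    have e1 : (4 : ℕ) ^ (m + l) * 2 ^ (n / 70) ≤ 5 ^ m := by
      obtain ⟨e, he⟩ : ∃ e, m = 10 * (m / 10) + e := ⟨m % 10, by omega⟩
      calc (4 : ℕ) ^ (m + l) * 2 ^ (n / 70) ≤ 4 ^ (m + m / 10) * 2 ^ (m / 10) := by
            apply Nat.mul_le_mul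
            · exact Nat.pow_le_pow_right (by norm_num) (by omega)
            · exact Nat.pow_le_pow_right (by norm_num) (by omega)
        _ = (4 ^ 11 * 2) ^ (m / 10) * 4 ^ e := by
            have : m + m / 10 = 11 * (m / 10) + e := by omega
            rw [this, pow_add, pow_mul, mul_pow]
            ring
        _ ≤ (5 ^ 10) ^ (m / 10) * 5 ^ e := by
            apply Nat.mul_le_mul
            · exact Nat.pow_le_pow_left (by norm_num) _
            · exact Nat.pow_le_pow_left (by norm_num) _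
        _ = 5 ^ m := by
            rw [← pow_mul, ← pow_add, ← he]
    exact_mod_cast e1
  set c : ℝ := (n : ℝ) ^ 3 * 2 ^ (m + l) / 5 ^ m with hc
  have hc0 : 0 ≤ c := by positivity
  have hc1 : c ≤ 1 := by
    calc c ≤ (n : ℝ) ^ 3 * (4 ^ (m + l) / 5 ^ m) := by
          rw [hc, mul_div_assoc]
          apply mul_le_mul_of_nonneg_left _ (by positivity)
          apply div_le_div_of_nonneg_right _ (by positivity)
          exact pow_le_pow_left₀ (by norm_num) (by norm_num) _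
      _ ≤ (n : ℝ) ^ 3 * (1 / 2) ^ (n / 70) := mul_le_mul_of_nonneg_left hd (by positivity)
      _ ≤ 1 := hC
  have hl1 : 1 ≤ l := by omega
  have hcl : c ^ l ≤ c := pow_le_of_le_one hc0 hc1 (by omega)
  have h6 : (n : ℝ) ^ (2 * l + 1) * (2 ^ (m + l)) ^ (l + 1) * (N : ℝ) ^ (s - l)
      ≤ (n * 2 ^ (m + l)) * c ^ l * ((N : ℝ) ^ (s - l) * (N : ℝ) ^ l) := by
    have e1 : (5 ^ m : ℝ) ^ l ≤ (n : ℝ) ^ l * (N : ℝ) ^ l := by
      rw [← mul_pow]
      exact pow_le_pow_left₀ (by positivity) h4' l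
    have e2 : (n * 2 ^ (m + l)) * c ^ l * ((N : ℝ) ^ (s - l) * (N : ℝ) ^ l) =
        ((n : ℝ) ^ (2 * l + 1) * (2 ^ (m + l)) ^ (l + 1) * (N : ℝ) ^ (s - l)) *
          (((n : ℝ) ^ l * (N : ℝ) ^ l) / (5 ^ m) ^ l) := by
      rw [hc, div_pow, mul_pow]
      field_simp
      ring
    rw [e2]
    have e3 : 1 ≤ ((n : ℝ) ^ l * (N : ℝ) ^ l) / (5 ^ m) ^ l := by
      rw [one_le_div (by positivity)]
      exact e1
    calc (n : ℝ) ^ (2 * l + 1) * (2 ^ (m + l)) ^ (l + 1) * (N : ℝ) ^ (s - l)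
        = ((n : ℝ) ^ (2 * l + 1) * (2 ^ (m + l)) ^ (l + 1) * (N : ℝ) ^ (s - l)) * 1 := by ring
      _ ≤ _ := mul_le_mul_of_nonneg_left e3 (by positivity)
  refine h6.trans ?_
  rw [← hNs]
  apply mul_le_mul_of_nonneg_right _ (by positivity)
  calc (n * 2 ^ (m + l)) * c ^ l ≤ (n * 2 ^ (m + l)) * c :=
        mul_le_mul_of_nonneg_left hcl (by positivity)
    _ = (n : ℝ) ^ 4 * (4 ^ (m + l) / 5 ^ m) := by
        rw [hc]
        have : (4 : ℝ) ^ (m + l) = 2 ^ (m + l) * 2 ^ (m + l) := by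
          rw [← mul_pow]
          norm_num
        rw [this]
        ring
    _ ≤ _ := mul_le_mul_of_nonneg_left hd (by positivity)

/-- Many sets avoiding a common set. -/
theorem regB (n s k : ℕ) (hs : s ≤ n) (hB : n ≤ 7 * (n - s)) (hn : 28 ≤ n)
    (hks : k ≤ s) (hk : (n - s) / 10 < k - 1)
    (hC : (n : ℝ) ^ 2 * (7 / 8) ^ (n / 70) ≤ 1) :
    ((s.choose k * (n.choose (s + 1 - k) *
      (FF (n - (s + 1 - k)) (n - s) ^ k * FF n (n - s) ^ (s - k))) : ℕ) : ℝ) ≤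
      (n : ℝ) ^ 2 * (7 / 8) ^ (n / 70) * ((FF n (n - s) : ℕ) : ℝ) ^ s := by
  set m := n - s with hm
  obtain ⟨x, hx⟩ : ∃ x, x = s + 1 - k := ⟨_, rfl⟩
  rw [← hx]
  have hx1 : 1 ≤ x := by omega
  have h1 : s.choose k ≤ n ^ x := by
    rw [← Nat.choose_symm hks]
    calc s.choose (s - k) ≤ s ^ (s - k) := choose_le_pow' _ _
      _ ≤ n ^ (s - k) := Nat.pow_le_pow_left hs _
      _ ≤ n ^ x := Nat.pow_le_pow_right (by omega) (by omega)
  have h2 : n.choose x ≤ n ^ x := choose_le_pow' _ _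
  have h3 : 8 ^ x * FF (n - x) m ≤ 7 ^ x * FF n m := by
    have e1 := FF_ratio n m x (by omega)
    have e2 : (8 * n) ^ x ≤ (7 * (n + m)) ^ x := Nat.pow_le_pow_left (by omega) x
    have e3 : n ^ x * (8 ^ x * FF (n - x) m) ≤ n ^ x * (7 ^ x * FF n m) := by
      calc n ^ x * (8 ^ x * FF (n - x) m) = (8 * n) ^ x * FF (n - x) m := by
            rw [mul_pow]; ring
        _ ≤ (7 * (n + m)) ^ x * FF (n - x) m := Nat.mul_le_mul_right _ e2
        _ = 7 ^ x * ((n + m) ^ x * FF (n - x) m) := by rw [mul_pow]; ring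
        _ ≤ 7 ^ x * (n ^ x * FF n m) := Nat.mul_le_mul_left _ e1
        _ = _ := by ring
    exact Nat.le_of_mul_le_mul_left e3 (by
      have : 0 < n := by omega
      positivity)
  have h3' : (FF (n - x) m : ℝ) ≤ (7 / 8) ^ x * (FF n m : ℝ) := by
    have e1 : (8 : ℝ) ^ x * (FF (n - x) m : ℝ) ≤ 7 ^ x * (FF n m : ℝ) := by exact_mod_cast h3
    rw [div_pow, div_mul_eq_mul_div, le_div_iff₀ (by positivity), mul_comm]
    exact e1
  set N : ℝ := (FF n m : ℝ) with hN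
  set F : ℝ := (FF (n - x) m : ℝ) with hF
  have hN0 : 0 ≤ N := Nat.cast_nonneg _
  have hF0 : 0 ≤ F := Nat.cast_nonneg _
  push_cast
  have h1' : (s.choose k : ℝ) ≤ (n : ℝ) ^ x := by exact_mod_cast h1
  have h2' : (n.choose x : ℝ) ≤ (n : ℝ) ^ x := by exact_mod_cast h2
  have hF' : F ^ k ≤ ((7 / 8) ^ x * N) ^ k := pow_le_pow_left₀ hF0 h3' k
  calc (s.choose k : ℝ) * ((n.choose x : ℝ) * (F ^ k * N ^ (s - k)))
      ≤ (n : ℝ) ^ x * ((n : ℝ) ^ x * (((7 / 8) ^ x * N) ^ k * N ^ (s - k))) := by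
        apply mul_le_mul h1' _ (by positivity) (by positivity)
        apply mul_le_mul h2' _ (by positivity) (by positivity)
        exact mul_le_mul_of_nonneg_right hF' (by positivity)
    _ = ((n : ℝ) ^ 2 * (7 / 8) ^ k) ^ x * N ^ s := by
        have e1 : N ^ s = N ^ k * N ^ (s - k) := by
          rw [← pow_add]
          congr 1
          omega
        rw [e1, mul_pow, mul_pow, ← pow_mul, ← pow_mul, ← pow_mul, mul_comm x k]
        ring
    _ ≤ ((n : ℝ) ^ 2 * (7 / 8) ^ (n / 70)) ^ x * N ^ s := by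
        apply mul_le_mul_of_nonneg_right _ (by positivity)
        apply pow_le_pow_left₀ (by positivity)
        apply mul_le_mul_of_nonneg_left _ (by positivity)
        exact pow_le_pow_of_le_one (by norm_num) (by norm_num) (by omega)
    _ ≤ ((n : ℝ) ^ 2 * (7 / 8) ^ (n / 70)) * N ^ s := by
        apply mul_le_mul_of_nonneg_right _ (by positivity)
        exact pow_le_of_le_one (by positivity) hC (by omega)

theorem in_range (n s : ℕ) (hs : s ≤ n) (hA : 5 * (n - s) ≤ 2 * n) (hB : n ≤ 7 * (n - s))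
    (hn : 28 ≤ n) (hC : (n : ℝ) ^ 4 * (7 / 8) ^ (n / 70) ≤ 1) :
    ((NT n s).card : ℝ) ≤ 2 * (n : ℝ) ^ 5 * (7 / 8) ^ (n / 70) * ((FF n (n - s) : ℕ) : ℝ) ^ s := by
  have hn1 : (1 : ℝ) ≤ n := by exact_mod_cast (by omega : 1 ≤ n)
  have hp : (1 / 2 : ℝ) ^ (n / 70) ≤ (7 / 8) ^ (n / 70) :=
    pow_le_pow_left₀ (by norm_num) (by norm_num) _
  have hC1 : (n : ℝ) ^ 3 * (1 / 2) ^ (n / 70) ≤ 1 := by
    refine le_trans ?_ hC
    apply mul_le_mul _ hp (by positivity) (by positivity)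
    exact pow_le_pow_right₀ hn1 (by norm_num)
  have hC2 : (n : ℝ) ^ 2 * (7 / 8) ^ (n / 70) ≤ 1 := by
    refine le_trans ?_ hC
    apply mul_le_mul_of_nonneg_right _ (by positivity)
    exact pow_le_pow_right₀ hn1 (by norm_num)
  have h1 := card_NT hs
  have h2 : ((NT n s).card : ℝ) ≤ ∑ k ∈ Icc 2 s, ((s.choose k * (n.choose (s + 1 - k) *
      (FF (n - (s + 1 - k)) (n - s) ^ k * FF n (n - s) ^ (s - k))) : ℕ) : ℝ) := by
    exact_mod_cast h1
  refine h2.trans ?_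
  have h3 : ∀ k ∈ Icc 2 s, ((s.choose k * (n.choose (s + 1 - k) *
      (FF (n - (s + 1 - k)) (n - s) ^ k * FF n (n - s) ^ (s - k))) : ℕ) : ℝ) ≤
      2 * (n : ℝ) ^ 4 * (7 / 8) ^ (n / 70) * ((FF n (n - s) : ℕ) : ℝ) ^ s := by
    intro k hk
    rw [mem_Icc] at hk
    rcases Nat.lt_or_ge ((n - s) / 10) (k - 1) with h | h
    · refine (regB n s k hs hB hn hk.2 h hC2).trans ?_
      apply mul_le_mul_of_nonneg_right _ (by positivity)
      apply mul_le_mul_of_nonneg_right _ (by positivity)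
      have : (n : ℝ) ^ 2 ≤ (n : ℝ) ^ 4 := pow_le_pow_right₀ hn1 (by norm_num)
      have h0 : (0 : ℝ) ≤ (n : ℝ) ^ 4 := by positivity
      linarith
    · refine (regA n s k hs hA hB hn hk.1 hk.2 h hC1).trans ?_
      apply mul_le_mul_of_nonneg_right _ (by positivity)
      have h0 : (0 : ℝ) ≤ (n : ℝ) ^ 4 := by positivity
      calc (n : ℝ) ^ 4 * (1 / 2) ^ (n / 70) ≤ (n : ℝ) ^ 4 * (7 / 8) ^ (n / 70) :=
            mul_le_mul_of_nonneg_left hp h0
        _ ≤ 2 * (n : ℝ) ^ 4 * (7 / 8) ^ (n / 70) := by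
            apply mul_le_mul_of_nonneg_right _ (by positivity)
            linarith
  refine (sum_le_sum h3).trans ?_
  rw [sum_const, nsmul_eq_mul]
  have h4 : ((Icc 2 s).card : ℝ) ≤ n := by
    rw [Nat.card_Icc]
    exact_mod_cast (by omega : s + 1 - 2 ≤ n)
  calc ((Icc 2 s).card : ℝ) * (2 * (n : ℝ) ^ 4 * (7 / 8) ^ (n / 70) *
      ((FF n (n - s) : ℕ) : ℝ) ^ s)
      ≤ (n : ℝ) * (2 * (n : ℝ) ^ 4 * (7 / 8) ^ (n / 70) * ((FF n (n - s) : ℕ) : ℝ) ^ s) :=
        mul_le_mul_of_nonneg_right h4 (by positivity)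
    _ = _ := by ring

end Pool.Agent.Helper46.T
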