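import Pool.Agent.Helper46.T.Enum

set_option autoImplicit false
set_option linter.unusedSectionVars false

namespace Pool.Agent.Helper46.T

open Finset

theorem FF_le_two_pow (a m : ℕ) : FF a m ≤ 2 ^ a := by
  unfold FF
  rw [← Nat.sum_range_choose]
  rcases Nat.le_total m a with h | h
  · apply sum_le_sum_of_subset
    intro x hx
    rw [mem_range] at *
    omega
  · have h1 : ∑ j ∈ range (m + 1), a.choose j = ∑ j ∈ range (a + 1), a.choose j := by
      symm
      apply sum_subset
      · intro x hx
        rw [mem_range] at *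
        omega
      · intro x _ hx
        rw [mem_range] at hx
        exact Nat.choose_eq_zero_of_lt (by omega)
    rw [h1]

theorem choose_le_FF (a m j : ℕ) (h : j ≤ m) : a.choose j ≤ FF a m := by
  unfold FF
  exact single_le_sum (f := fun j => a.choose j) (fun _ _ => Nat.zero_le _)
    (by rw [mem_range]; omega)

theorem FF_pos (a m : ℕ) : 0 < FF a m := by
  have := choose_le_FF a m 0 (Nat.zero_le _)
  rw [Nat.choose_zero_right] at this
  omega

theorem FF_succ (a m : ℕ) : FF (a + 1) (m + 1) = FF a (m + 1) + FF a m := by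
  unfold FF
  rw [sum_range_succ' _ (m + 1)]
  have h1 : ∑ k ∈ range (m + 1), (a + 1).choose (k + 1)
      = ∑ k ∈ range (m + 1), a.choose k + ∑ k ∈ range (m + 1), a.choose (k + 1) := by
    rw [← sum_add_distrib]
    apply sum_congr rfl
    intro k _
    rw [Nat.choose_succ_succ]
  rw [h1, sum_range_succ' (fun k => a.choose k) (m + 1), Nat.choose_zero_right,
    Nat.choose_zero_right]
  ring

/-- One step of the ratio bound. -/
theorem FF_step (a m n : ℕ) (hma : m ≤ a) (han : a + 1 ≤ n) :
    (n + m) * FF a m ≤ n * FF (a + 1) m := by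
  rcases Nat.eq_zero_or_pos m with h0 | h0
  · subst h0
    simp [FF]
  · obtain ⟨l, rfl⟩ : ∃ l, m = l + 1 := ⟨m - 1, by omega⟩
    have h1 : (l + 1) * FF a (l + 1) ≤ (a + 1) * FF a l := by
      have e1 : FF a (l + 1) = FF a l + a.choose (l + 1) := by
        unfold FF
        rw [sum_range_succ]
      have e2 : a.choose (l + 1) * (l + 1) = a.choose l * (a - l) := Nat.choose_succ_right_eq a l
      have e3 : a.choose l ≤ FF a l := choose_le_FF a l l le_rfl
      obtain ⟨d, hd⟩ : ∃ d, a = l + d := ⟨a - l, by omega⟩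
      have e4 : a - l = d := by omega
      rw [e4] at e2
      rw [e1]
      calc (l + 1) * (FF a l + a.choose (l + 1))
          = (l + 1) * FF a l + a.choose (l + 1) * (l + 1) := by ring
        _ = (l + 1) * FF a l + a.choose l * d := by rw [e2]
        _ ≤ (l + 1) * FF a l + FF a l * d := by
            apply Nat.add_le_add_left
            exact Nat.mul_le_mul_right _ e3
        _ = (a + 1) * FF a l := by rw [hd]; ring
    rw [FF_succ]
    have h2 : (l + 1) * FF a (l + 1) ≤ n * FF a l :=
      h1.trans (Nat.mul_le_mul_right _ han)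
    calc (n + (l + 1)) * FF a (l + 1) = n * FF a (l + 1) + (l + 1) * FF a (l + 1) := by ring
      _ ≤ n * FF a (l + 1) + n * FF a l := Nat.add_le_add_left h2 _
      _ = _ := by ring

theorem FF_ratio (n m x : ℕ) (h : m + x ≤ n) :
    (n + m) ^ x * FF (n - x) m ≤ n ^ x * FF n m := by
  induction x with
  | zero => simp
  | succ x ih =>
    have h1 := ih (by omega)
    have h2 := FF_step (n - (x + 1)) m n (by omega) (by omega)
    have h3 : n - (x + 1) + 1 = n - x := by omega
    rw [h3] at h2
    calc (n + m) ^ (x + 1) * FF (n - (x + 1)) m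
        = (n + m) ^ x * ((n + m) * FF (n - (x + 1)) m) := by ring
      _ ≤ (n + m) ^ x * (n * FF (n - x) m) := Nat.mul_le_mul_left _ h2
      _ = n * ((n + m) ^ x * FF (n - x) m) := by ring
      _ ≤ n * (n ^ x * FF n m) := Nat.mul_le_mul_left _ h1
      _ = _ := by ring

theorem desc_ratio (a b m : ℕ) (hab : b ≤ a) (hm : m ≤ b) :
    b.descFactorial m * a ^ m ≤ a.descFactorial m * b ^ m := by
  induction m with
  | zero => simp
  | succ m ih =>
    have h1 := ih (by omega)
    rw [Nat.descFactorial_succ, Nat.descFactorial_succ]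
    obtain ⟨c, rfl⟩ : ∃ c, b = m + c := ⟨b - m, by omega⟩
    obtain ⟨d, rfl⟩ : ∃ d, a = m + c + d := ⟨a - (m + c), by omega⟩
    have e1 : m + c - m = c := by omega
    have e2 : m + c + d - m = c + d := by omega
    rw [e1, e2]
    calc c * (m + c).descFactorial m * (m + c + d) ^ (m + 1)
        = (c * (m + c + d)) * ((m + c).descFactorial m * (m + c + d) ^ m) := by ring
      _ ≤ ((c + d) * (m + c)) * ((m + c + d).descFactorial m * (m + c) ^ m) := by
          apply Nat.mul_le_mul _ h1
          nlinarith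
      _ = _ := by ring

theorem choose_lower (n m : ℕ) (hm : 4 ≤ m) (h : 5 * m ≤ 2 * n) : 5 ^ m ≤ n.choose m * m := by
  have h1 := desc_ratio n (2 * m) m (by omega) (by omega)
  have h2 : (2 * m).choose m * n ^ m ≤ n.choose m * (2 * m) ^ m := by
    have e1 := Nat.descFactorial_eq_factorial_mul_choose (2 * m) m
    have e2 := Nat.descFactorial_eq_factorial_mul_choose n m
    rw [e1, e2] at h1
    apply Nat.le_of_mul_le_mul_left _ (Nat.factorial_pos m)
    calc m.factorial * ((2 * m).choose m * n ^ m) = m.factorial * (2 * m).choose m * n ^ m := by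
          ring
      _ ≤ _ := h1
      _ = _ := by ring
  have h3 := Nat.four_pow_lt_mul_centralBinom m hm
  unfold Nat.centralBinom at h3
  have h4 : 5 ^ m * (2 * m) ^ m ≤ (n.choose m * m) * (2 * m) ^ m := by
    calc 5 ^ m * (2 * m) ^ m = (5 * (2 * m)) ^ m := (mul_pow 5 (2 * m) m).symm
      _ ≤ (4 * n) ^ m := Nat.pow_le_pow_left (by omega) m
      _ = 4 ^ m * n ^ m := by rw [mul_pow]
      _ ≤ (m * (2 * m).choose m) * n ^ m := Nat.mul_le_mul_right _ h3.le
      _ = m * ((2 * m).choose m * n ^ m) := by ring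
      _ ≤ m * (n.choose m * (2 * m) ^ m) := Nat.mul_le_mul_left _ h2
      _ = _ := by ring
  exact Nat.le_of_mul_le_mul_right h4 (by positivity)

theorem choose_shift (n m l : ℕ) : n.choose (m + l) ≤ n ^ l * n.choose m := by
  induction l with
  | zero => simp
  | succ l ih =>
    have e := Nat.choose_succ_right_eq n (m + l)
    have h1 : n.choose (m + l + 1) ≤ n * n.choose (m + l) := by
      calc n.choose (m + l + 1) ≤ n.choose (m + l + 1) * (m + l + 1) :=
            Nat.le_mul_of_pos_right _ (by omega)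
        _ = n.choose (m + l) * (n - (m + l)) := e
        _ ≤ n.choose (m + l) * n := Nat.mul_le_mul_left _ (Nat.sub_le _ _)
        _ = _ := by ring
    calc n.choose (m + (l + 1)) ≤ n * n.choose (m + l) := h1
      _ ≤ n * (n ^ l * n.choose m) := Nat.mul_le_mul_left _ ih
      _ = _ := by ring

/-- Out of range bound. -/
theorem out_range (n s : ℕ) (hs : s ≤ n)
    (h : ¬ (5 * (n - s) ≤ 2 * n ∧ n ≤ 7 * (n - s))) :
    FF n (n - s) ^ s ≤ 2 ^ (3 * n * n / 5 + 1) := by
  have key : (FF n (n - s) ^ s) ^ 5 ≤ 2 ^ (3 * n * n) := by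
    rw [not_and_or, not_le, not_le] at h
    rcases h with h | h
    · calc (FF n (n - s) ^ s) ^ 5 ≤ ((2 ^ n) ^ s) ^ 5 :=
            Nat.pow_le_pow_left (Nat.pow_le_pow_left (FF_le_two_pow _ _) _) _
        _ = 2 ^ (n * s * 5) := by rw [← pow_mul, ← pow_mul, mul_assoc]
        _ ≤ 2 ^ (3 * n * n) := by
            apply Nat.pow_le_pow_right (by norm_num)
            have : s * 5 ≤ 3 * n := by omega
            nlinarith
    · set m := n - s with hm
      have h1 : FF n m * 6 ^ (n - m) ≤ 7 ^ n := by
        have h2 : (7 : ℕ) ^ n = ∑ j ∈ range (n + 1), 1 ^ j * 6 ^ (n - j) * n.choose j := by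
          have := add_pow 1 6 n
          norm_num at this ⊢
          exact this
        rw [h2]
        unfold FF
        rw [sum_mul]
        calc ∑ i ∈ range (m + 1), n.choose i * 6 ^ (n - m)
            ≤ ∑ i ∈ range (m + 1), 1 ^ i * 6 ^ (n - i) * n.choose i := by
              apply sum_le_sum
              intro i hi
              rw [mem_range] at hi
              rw [one_pow, one_mul, mul_comm]
              apply Nat.mul_le_mul_right
              exact Nat.pow_le_pow_right (by norm_num) (by omega)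
          _ ≤ ∑ i ∈ range (n + 1), 1 ^ i * 6 ^ (n - i) * n.choose i := by
              apply sum_le_sum_of_subset
              intro x hx
              rw [mem_range] at *
              omega
      have h3 : FF n m ^ 35 * 6 ^ (30 * n) ≤ 2 ^ (21 * n) * 6 ^ (30 * n) := by
        calc FF n m ^ 35 * 6 ^ (30 * n) ≤ FF n m ^ 35 * 6 ^ (35 * (n - m)) := by
              apply Nat.mul_le_mul_left
              exact Nat.pow_le_pow_right (by norm_num) (by omega)
          _ = (FF n m * 6 ^ (n - m)) ^ 35 := by rw [mul_pow, ← pow_mul]; ring_nf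
          _ ≤ (7 ^ n) ^ 35 := Nat.pow_le_pow_left h1 35
          _ = (7 ^ 35) ^ n := by rw [← pow_mul, ← pow_mul, mul_comm]
          _ ≤ (2 ^ 21 * 6 ^ 30) ^ n := Nat.pow_le_pow_left (by norm_num) n
          _ = _ := by rw [mul_pow, ← pow_mul, ← pow_mul]
      have h4 : FF n m ^ 35 ≤ 2 ^ (21 * n) := Nat.le_of_mul_le_mul_right h3 (by positivity)
      have h5 : FF n m ^ 5 ≤ 2 ^ (3 * n) := by
        have h6 : (FF n m ^ 5) ^ 7 ≤ (2 ^ (3 * n)) ^ 7 := by
          rw [← pow_mul, ← pow_mul]
          calc FF n m ^ (5 * 7) = FF n m ^ 35 := by norm_num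
            _ ≤ 2 ^ (21 * n) := h4
            _ = _ := by ring_nf
        exact (Nat.pow_le_pow_iff_left (by norm_num)).1 h6
      calc (FF n m ^ s) ^ 5 = (FF n m ^ 5) ^ s := by rw [← pow_mul, ← pow_mul, mul_comm]
        _ ≤ (2 ^ (3 * n)) ^ s := Nat.pow_le_pow_left h5 s
        _ = 2 ^ (3 * n * s) := by rw [← pow_mul]
        _ ≤ 2 ^ (3 * n * n) := Nat.pow_le_pow_right (by norm_num) (Nat.mul_le_mul_left _ hs)
  have h2 : (FF n (n - s) ^ s) ^ 5 ≤ (2 ^ (3 * n * n / 5 + 1)) ^ 5 := by
    refine key.trans ?_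
    rw [← pow_mul]
    apply Nat.pow_le_pow_right (by norm_num)
    omega
  exact (Nat.pow_le_pow_iff_left (by norm_num)).1 h2

/-- The largest term of a binomial expansion. -/
theorem max_term (q : ℕ) :
    (10 ^ 10) ^ q ≤ (10 * q + 1) * ((10 * q).choose (3 * q) * (22235661 ^ q)) := by
  set f : ℕ → ℕ := fun k => (10 * q).choose k * (3 ^ k * 7 ^ (10 * q - k)) with hf
  have hup : ∀ k, k < 3 * q → f k ≤ f (k + 1) := by
    intro k hk
    simp only [hf]
    have e := Nat.choose_succ_right_eq (10 * q) k
    have e2 : 7 ^ (10 * q - k) = 7 * 7 ^ (10 * q - (k + 1)) := by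
      rw [← pow_succ']
      congr 1
      omega
    apply Nat.le_of_mul_le_mul_right _ (show 0 < k + 1 by omega)
    rw [e2, pow_succ]
    calc (10 * q).choose k * (3 ^ k * (7 * 7 ^ (10 * q - (k + 1)))) * (k + 1)
        = ((10 * q).choose k * (3 ^ k * 7 ^ (10 * q - (k + 1)))) * (7 * (k + 1)) := by ring
      _ ≤ ((10 * q).choose k * (3 ^ k * 7 ^ (10 * q - (k + 1)))) * (3 * (10 * q - k)) := by
          apply Nat.mul_le_mul_left
          omega
      _ = ((10 * q).choose k * (10 * q - k)) * (3 ^ k * 3 * 7 ^ (10 * q - (k + 1))) := by ring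
      _ = _ := by rw [← e]; ring
  have hdown : ∀ k, 3 * q ≤ k → k < 10 * q → f (k + 1) ≤ f k := by
    intro k hk hk2
    simp only [hf]
    have e := Nat.choose_succ_right_eq (10 * q) k
    have e2 : 7 ^ (10 * q - k) = 7 * 7 ^ (10 * q - (k + 1)) := by
      rw [← pow_succ']
      congr 1
      omega
    apply Nat.le_of_mul_le_mul_right _ (show 0 < k + 1 by omega)
    rw [e2, pow_succ]
    calc (10 * q).choose (k + 1) * (3 ^ k * 3 * 7 ^ (10 * q - (k + 1))) * (k + 1)
        = ((10 * q).choose (k + 1) * (k + 1)) * (3 ^ k * 3 * 7 ^ (10 * q - (k + 1))) := by ring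
      _ = ((10 * q).choose k * (10 * q - k)) * (3 ^ k * 3 * 7 ^ (10 * q - (k + 1))) := by rw [e]
      _ = ((10 * q).choose k * (3 ^ k * 7 ^ (10 * q - (k + 1)))) * (3 * (10 * q - k)) := by ring
      _ ≤ ((10 * q).choose k * (3 ^ k * 7 ^ (10 * q - (k + 1)))) * (7 * (k + 1)) := by
          apply Nat.mul_le_mul_left
          omega
      _ = _ := by ring
  have h1 : ∀ d, d ≤ 3 * q → f (3 * q - d) ≤ f (3 * q) := by
    intro d
    induction d with
    | zero => intro _; exact le_refl _
    | succ d ih =>
      intro hd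
      have h2 := hup (3 * q - (d + 1)) (by omega)
      have h3 : 3 * q - (d + 1) + 1 = 3 * q - d := by omega
      rw [h3] at h2
      exact h2.trans (ih (by omega))
  have h2 : ∀ d, 3 * q + d ≤ 10 * q → f (3 * q + d) ≤ f (3 * q) := by
    intro d
    induction d with
    | zero => intro _; exact le_refl _
    | succ d ih =>
      intro hd
      exact (hdown (3 * q + d) (by omega) (by omega)).trans (ih (by omega))
  have h3 : ∀ k ∈ range (10 * q + 1), f k ≤ f (3 * q) := by
    intro k hk
    rw [mem_range] at hk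
    rcases Nat.le_total k (3 * q) with h | h
    · have := h1 (3 * q - k) (by omega)
      have h4 : 3 * q - (3 * q - k) = k := by omega
      rwa [h4] at this
    · have := h2 (k - 3 * q) (by omega)
      have h4 : 3 * q + (k - 3 * q) = k := by omega
      rwa [h4] at this
  have h4 : (10 ^ 10) ^ q = ∑ k ∈ range (10 * q + 1), f k := by
    have h5 := add_pow 3 7 (10 * q)
    rw [← pow_mul]
    have h6 : (3 + 7 : ℕ) = 10 := by norm_num
    rw [h6] at h5
    rw [h5]
    apply sum_congr rfl
    intro k _
    simp only [hf, Nat.cast_id]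
    ring
  rw [h4]
  refine (sum_le_sum h3).trans ?_
  rw [sum_const, card_range, smul_eq_mul]
  apply Nat.mul_le_mul_left
  simp only [hf]
  apply Nat.mul_le_mul_left
  have h7 : 10 * q - 3 * q = 7 * q := by omega
  rw [h7, pow_mul, pow_mul, ← mul_pow]
  norm_num

theorem FF_main (n q : ℕ) (hq : q = n / 10) :
    449 ^ q ≤ (n + 1) * FF n (n - 7 * q) := by
  have h1 := max_term q
  have h2 : (10 * q).choose (3 * q) ≤ FF n (n - 7 * q) :=
    (Nat.choose_le_choose (3 * q) (show 10 * q ≤ n by omega)).trans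
      (choose_le_FF n (n - 7 * q) (3 * q) (by omega))
  have h3 : 449 ^ q * 22235661 ^ q ≤ ((n + 1) * FF n (n - 7 * q)) * 22235661 ^ q := by
    calc 449 ^ q * 22235661 ^ q = (449 * 22235661) ^ q := by rw [mul_pow]
      _ ≤ (10 ^ 10) ^ q := Nat.pow_le_pow_left (by norm_num) q
      _ ≤ (10 * q + 1) * ((10 * q).choose (3 * q) * (22235661 ^ q)) := h1
      _ ≤ (n + 1) * (FF n (n - 7 * q) * (22235661 ^ q)) := by
          apply Nat.mul_le_mul (by omega)
          exact Nat.mul_le_mul_right _ h2
      _ = _ := by ring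
  exact Nat.le_of_mul_le_mul_right h3 (by positivity)

end Pool.Agent.Helper46.T
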