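import Pool.Agent.Helper46.T.Face

set_option autoImplicit false
set_option linter.unusedSectionVars false

namespace Pool.Agent.Helper46.T

open Finset

variable {α ι : Type} [Fintype α] [DecidableEq α] [Nonempty α] [Fintype ι] [DecidableEq ι]

/-- No edge can be removed from the presentation. -/
def Irr (A : ι → Finset α) : Prop :=
  ∀ i, ∀ e ∈ A i, ∃ I, PT A I ∧ ¬ PT (del A i e) I

theorem exists_irr (A : ι → Finset α) :
    ∃ A' : ι → Finset α, (∀ I, PT A' I ↔ PT A I) ∧ Irr A' := by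
  classical
  obtain ⟨A', hA', hmin⟩ := Finset.exists_min_image
    (univ.filter (fun A' : ι → Finset α => ∀ I, PT A' I ↔ PT A I))
    (fun A' => ∑ i, (A' i).card) ⟨A, by simp⟩
  rw [mem_filter] at hA'
  refine ⟨A', hA'.2, ?_⟩
  intro i e he
  by_contra hcon
  push Not at hcon
  have h1 : ∀ I, PT (del A' i e) I ↔ PT A I := by
    intro I
    rw [← hA'.2 I]
    exact ⟨pt_mono (del_subset A' i e), hcon I⟩
  have h2 := hmin (del A' i e) (by rw [mem_filter]; exact ⟨mem_univ _, h1⟩)
  have h3 : ∑ j, (del A' i e j).card < ∑ j, (A' j).card := by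
    apply Finset.sum_lt_sum
    · intro j _
      exact card_le_card (del_subset A' i e j)
    · refine ⟨i, mem_univ i, ?_⟩
      rw [del, if_pos rfl]
      exact card_erase_lt_of_mem he
  omega

theorem star (A : ι → Finset α) (hA : Irr A) (i : ι) :
    ∃ J : Finset ι, i ∉ J ∧ Face A (A i)ᶜ J ∧ ∀ e ∈ A i, nb A e ⊆ insert i J := by
  have h : ∀ e ∈ A i, ∃ J : Finset ι, i ∉ J ∧ Face A (A i)ᶜ J ∧ nb A e ⊆ insert i J := by
    intro e he
    obtain ⟨I, hI, hI'⟩ := hA i e he
    obtain ⟨J, h1, h2, h3, -⟩ := tight A i e I hI hI'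
    exact ⟨J, h1, h2, h3⟩
  choose! J hJ1 hJ2 hJ3 using h
  refine ⟨(A i).biUnion J, ?_, Face.biUnion _ _ hJ2, ?_⟩
  · intro hcon
    rw [mem_biUnion] at hcon
    obtain ⟨e, he, hie⟩ := hcon
    exact hJ1 e he hie
  · intro e he
    refine (hJ3 e he).trans ?_
    apply insert_subset_insert
    exact subset_biUnion_of_mem J he

/-- The nonempty sets of the presentation. -/
def sup (A : ι → Finset α) : Finset ι := univ.filter (fun i => (A i).Nonempty)

theorem mem_sup (A : ι → Finset α) (i : ι) : i ∈ sup A ↔ (A i).Nonempty := by simp [sup]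

theorem support_face (A : ι → Finset α) (hA : Irr A) : Face A univ (sup A) := by
  have h : ∀ i ∈ sup A, ∃ K : Finset ι, i ∈ K ∧ Face A univ K := by
    intro i hi
    rw [mem_sup] at hi
    obtain ⟨e, he⟩ := hi
    obtain ⟨I, hI, hI'⟩ := hA i e he
    obtain ⟨J, h1, h2, h3, h4⟩ := tight A i e I hI hI'
    exact ⟨insert i J, mem_insert_self _ _, h4⟩
  choose! K hK1 hK2 using h
  have h2 : (sup A).biUnion K = sup A := by
    ext j
    rw [mem_biUnion]
    constructor
    · rintro ⟨i, hi, hj⟩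
      obtain ⟨g, -, hg⟩ := hK2 i hi
      rw [mem_sup]
      exact ⟨g j, (hg j hj).1⟩
    · intro hj
      exact ⟨j, hj, hK1 j hj⟩
  rw [← h2]
  exact Face.biUnion _ _ hK2

theorem pres (A : ι → Finset α) : ∃ A' : ι → Finset α, (∀ I, PT A' I ↔ PT A I) ∧
    (∃ g : ι → α, Set.InjOn g (sup A') ∧ ∀ j ∈ sup A', g j ∈ A' j) ∧
    ∀ i ∈ sup A', ∃ h : ι → α, Set.InjOn h ((sup A').erase i) ∧
      ∀ j ∈ (sup A').erase i, h j ∈ A' j ∧ h j ∉ A' i := by
  classical
  obtain ⟨A', hA', hirr⟩ := exists_irr A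
  obtain ⟨g, hg, hg2⟩ := support_face A' hirr
  refine ⟨A', hA', ⟨g, hg, fun j hj => (hg2 j hj).1⟩, ?_⟩
  intro i hi
  obtain ⟨J, hiJ, ⟨k, hk, hk2⟩, hJ⟩ := star A' hirr i
  refine ⟨fun j => if j ∈ J then k j else g j, ?_, ?_⟩
  · intro a ha b hb hab
    rw [mem_coe, mem_erase] at ha hb
    simp only at hab
    by_cases haJ : a ∈ J <;> by_cases hbJ : b ∈ J
    · rw [if_pos haJ, if_pos hbJ] at hab
      exact hk haJ hbJ hab
    · rw [if_pos haJ, if_neg hbJ] at hab
      exfalso
      apply hbJ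
      apply (hk2 a haJ).2.2
      rw [mem_nb, hab]
      exact (hg2 b hb.2).1
    · rw [if_neg haJ, if_pos hbJ] at hab
      exfalso
      apply haJ
      apply (hk2 b hbJ).2.2
      rw [mem_nb, ← hab]
      exact (hg2 a ha.2).1
    · rw [if_neg haJ, if_neg hbJ] at hab
      exact hg ha.2 hb.2 hab
  · intro j hj
    rw [mem_erase] at hj
    by_cases hjJ : j ∈ J
    · simp only [if_pos hjJ]
      obtain ⟨h1, h2, -⟩ := hk2 j hjJ
      exact ⟨h1, mem_compl.1 h2⟩
    · simp only [if_neg hjJ]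
      obtain ⟨h1, -, -⟩ := hg2 j hj.2
      refine ⟨h1, ?_⟩
      intro h2
      have h3 := hJ _ h2 ((mem_nb A' _ j).2 h1)
      rw [mem_insert] at h3
      rcases h3 with h3 | h3
      · exact hj.1 h3
      · exact hjJ h3

/-- Minimal presentations. -/
def MinP {r : ℕ} (A : Fin r → Finset α) : Prop :=
  ∀ i, ∃ h : Fin r → α, (∀ a b, a ≠ i → b ≠ i → h a = h b → a = b) ∧
    ∀ j, j ≠ i → h j ∈ A j ∧ h j ∉ A i

theorem MinP.injective {r : ℕ} {A : Fin r → Finset α} (h : MinP A) : Function.Injective A := by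
  intro i j hij
  by_contra hne
  obtain ⟨g, -, hg⟩ := h i
  obtain ⟨h1, h2⟩ := hg j (Ne.symm hne)
  rw [hij] at h2
  exact h2 h1

theorem pt_reindex {κ : Type} [Fintype κ] [DecidableEq κ] (A : ι → Finset α) (e : κ → ι)
    (he : Function.Injective e) (hA : ∀ i, (∀ k, e k ≠ i) → A i = ∅) (I : Finset α) :
    PT (fun k => A (e k)) I ↔ PT A I := by
  classical
  constructor
  · rintro ⟨K, g, hg, hgA, hI⟩
    have hinv : ∀ k, ∀ h : ∃ l, e l = e k, h.choose = k := fun k h => he h.choose_spec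
    refine ⟨K.image e, fun i => if h : ∃ k, e k = i then g h.choose else
      Classical.arbitrary α, ?_, ?_, ?_⟩
    · intro i hi j hj hij
      rw [mem_coe, mem_image] at hi hj
      obtain ⟨a, ha, rfl⟩ := hi
      obtain ⟨b, hb, rfl⟩ := hj
      have h1 : ∃ l, e l = e a := ⟨a, rfl⟩
      have h2 : ∃ l, e l = e b := ⟨b, rfl⟩
      simp only [dif_pos h1, dif_pos h2, hinv] at hij
      rw [hg ha hb hij]
    · intro i hi
      rw [mem_image] at hi
      obtain ⟨a, ha, rfl⟩ := hi
      have h1 : ∃ l, e l = e a := ⟨a, rfl⟩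
      simp only [dif_pos h1, hinv]
      exact hgA a ha
    · rw [← hI, image_image]
      apply image_congr
      intro a _
      have h1 : ∃ l, e l = e a := ⟨a, rfl⟩
      simp only [Function.comp_apply, dif_pos h1, hinv]
  · rintro ⟨K, g, hg, hgA, hI⟩
    refine ⟨univ.filter (fun k => e k ∈ K), fun k => g (e k), ?_, ?_, ?_⟩
    · intro a ha b hb hab
      rw [mem_coe, mem_filter] at ha hb
      exact he (hg ha.2 hb.2 hab)
    · intro k hk
      rw [mem_filter] at hk
      exact hgA _ hk.2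
    · rw [← hI]
      ext x
      rw [mem_image, mem_image]
      constructor
      · rintro ⟨k, hk, rfl⟩
        rw [mem_filter] at hk
        exact ⟨e k, hk.2, rfl⟩
      · rintro ⟨i, hi, rfl⟩
        have h1 : ∃ k, e k = i := by
          by_contra hcon
          push Not at hcon
          have h2 := hgA i hi
          rw [hA i hcon] at h2
          exact absurd h2 (notMem_empty _)
        obtain ⟨k, rfl⟩ := h1
        exact ⟨k, by rw [mem_filter]; exact ⟨mem_univ _, hi⟩, rfl⟩

theorem pt_card (A : ι → Finset α) (I : Finset α) (h : PT A I) : I.card ≤ (sup A).card := by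
  obtain ⟨K, g, hg, hgA, hI⟩ := h
  rw [← hI]
  refine card_image_le.trans (card_le_card ?_)
  intro j hj
  rw [mem_sup]
  exact ⟨g j, hgA j hj⟩

theorem pres_fin (A : ι → Finset α) (r : ℕ) (h1 : ∃ I, PT A I ∧ I.card = r)
    (h2 : ∀ I, PT A I → I.card ≤ r) :
    ∃ A' : Fin r → Finset α, (∀ I, PT A' I ↔ PT A I) ∧ MinP A' := by
  classical
  obtain ⟨A', hA', ⟨g, hg, hg2⟩, h3⟩ := pres A
  have hcard : (sup A').card = r := by
    apply le_antisymm
    · have h4 := h2 _ ((hA' _).1 ⟨sup A', g, hg, hg2, rfl⟩)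
      rwa [card_image_of_injOn hg] at h4
    · obtain ⟨I, hI, hIr⟩ := h1
      rw [← hIr]
      exact pt_card A' I ((hA' I).2 hI)
  let e := (Finset.equivFinOfCardEq hcard).symm
  refine ⟨fun k => A' (e k), ?_, ?_⟩
  · intro I
    rw [← hA' I]
    apply pt_reindex A' (fun k => (e k : ι))
    · intro a b hab
      exact e.injective (Subtype.ext hab)
    · intro i hi
      by_contra hne
      have h5 : i ∈ sup A' := (mem_sup A' i).2 (nonempty_iff_ne_empty.2 hne)
      apply hi (e.symm ⟨i, h5⟩)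
      rw [Equiv.apply_symm_apply]
  · intro k
    obtain ⟨h, hh, hh2⟩ := h3 (e k) (e k).2
    refine ⟨fun l => h (e l), ?_, ?_⟩
    · intro a b ha hb hab
      have h6 : (e a : ι) = e b := by
        apply hh _ _ hab
        · rw [mem_coe, mem_erase]
          exact ⟨fun h => ha (e.injective (Subtype.ext h)), (e a).2⟩
        · rw [mem_coe, mem_erase]
          exact ⟨fun h => hb (e.injective (Subtype.ext h)), (e b).2⟩
      exact e.injective (Subtype.ext h6)
    · intro j hj
      apply hh2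
      rw [mem_erase]
      exact ⟨fun h => hj (e.injective (Subtype.ext h)), (e j).2⟩

end Pool.Agent.Helper46.T
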