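import Pool.Agent.Helper46.T.Typ

set_option autoImplicit false
set_option linter.unusedSectionVars false

namespace Pool.Agent.Helper46.T

open Finset

section Rank

variable {α : Type} [Fintype α] [DecidableEq α] [Nonempty α] {s : ℕ}

/-- The matroid has the given bases. -/
def HasB (M : Matroid α) (S : Finset (Finset α)) : Prop :=
  M.E = Set.univ ∧ ∀ B : Finset α, M.IsBase (B : Set α) ↔ B ∈ S

theorem HasB.ext {M M' : Matroid α} {S : Finset (Finset α)} (h : HasB M S) (h' : HasB M' S) :
    M = M' := by
  apply Matroid.ext_isBase (by rw [h.1, h'.1])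
  intro B _
  have hB : B.Finite := Set.toFinite B
  have h1 := h.2 hB.toFinset
  have h2 := h'.2 hB.toFinset
  rw [Set.Finite.coe_toFinset] at h1 h2
  rw [h1, h2]

open Classical in
/-- Rank in a lifted typical matroid. -/
noncomputable def rho (r : ℕ) (A : Fin s → Finset α) (X : Finset α) : ℕ :=
  if X.card < r then X.card else if ∃ i, Disjoint X (A i) then r - 1 else r

theorem rank_eq (M : Matroid α) (A : Fin s → Finset α) (h : Typ A) (r : ℕ) (hsr : s ≤ r)
    (hM : HasB M (pav r A)) (X : Finset α) : (M.eRk (X : Set α)).toNat = rho r A X := by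
  classical
  obtain ⟨B0, hB0⟩ := M.exists_isBase
  have hB0f : B0.Finite := Set.toFinite B0
  have hB0' : hB0f.toFinset ∈ pav r A := by
    rw [← hM.2, Set.Finite.coe_toFinset]
    exact hB0
  rw [mem_pav] at hB0'
  have huniv : ∀ i, ¬ Disjoint (univ : Finset α) (A i) :=
    fun i hd => hB0'.2 i (hd.mono_left (subset_univ _))
  have hcardu : r ≤ (univ : Finset α).card := by
    rw [← hB0'.1]
    exact card_le_univ _
  have hsmall : ∀ J : Finset α, J.card < r → M.Indep (J : Set α) := by
    intro J hJ
    obtain ⟨B, hB, hJB, -⟩ := exists_complete A h r hsr univ J (subset_univ _) hJ hcardu huniv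
    exact ((hM.2 B).2 hB).indep.subset (by exact_mod_cast hJB)
  unfold rho
  split_ifs with h1 h2
  · rw [(hsmall X h1).eRk_eq_encard, Set.encard_coe_eq_coe_finsetCard, ENat.toNat_natCast]
  · obtain ⟨i, hi⟩ := h2
    have hs : 0 < s := Fin.pos i
    have h3 : M.eRk (X : Set α) = ((r - 1 : ℕ) : ℕ∞) := by
      apply le_antisymm
      · rw [Matroid.eRk_le_iff]
        intro I hIX hI
        have hIf : I.Finite := Set.toFinite I
        obtain ⟨B, hB, hIB⟩ := hI.exists_isBase_superset
        have hBf : B.Finite := Set.toFinite B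
        have hBm : hBf.toFinset ∈ pav r A := by
          rw [← hM.2, Set.Finite.coe_toFinset]
          exact hB
        rw [mem_pav] at hBm
        rw [← hIf.coe_toFinset, Set.encard_coe_eq_coe_finsetCard]
        have h4 : hIf.toFinset ⊆ hBf.toFinset := by
          intro x hx
          rw [Set.Finite.mem_toFinset] at hx ⊢
          exact hIB hx
        have h5 : hIf.toFinset ≠ hBf.toFinset := by
          intro h6
          apply hBm.2 i
          rw [← h6]
          apply hi.mono_left
          intro x hx
          rw [Set.Finite.mem_toFinset] at hx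
          exact_mod_cast hIX hx
        have h7 := card_lt_card (Finset.ssubset_iff_subset_ne.2 ⟨h4, h5⟩)
        rw [hBm.1] at h7
        exact_mod_cast (show hIf.toFinset.card ≤ r - 1 by omega)
      · rw [Matroid.le_eRk_iff]
        obtain ⟨J, hJX, hJ⟩ := exists_subset_card_eq (s := X) (n := r - 1) (by omega)
        refine ⟨(J : Set α), by exact_mod_cast hJX, hsmall J (by omega), ?_⟩
        rw [Set.encard_coe_eq_coe_finsetCard, hJ]
    rw [h3, ENat.toNat_natCast]
  · push Not at h2
    have hex : ∃ B ∈ pav r A, B ⊆ X := by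
      rcases Nat.eq_zero_or_pos r with h0 | h0
      · refine ⟨∅, ?_, empty_subset _⟩
        rw [mem_pav]
        have h4 : s = 0 := by omega
        subst h4
        exact ⟨by rw [card_empty, h0], fun i => i.elim0⟩
      · obtain ⟨B, hB, -, hBX⟩ := exists_complete A h r hsr X ∅ (empty_subset _)
          (by rw [card_empty]; exact h0) (by omega) h2
        exact ⟨B, hB, hBX⟩
    obtain ⟨B, hB, hBX⟩ := hex
    have hBb := (hM.2 B).2 hB
    have h3 : M.eRk (X : Set α) = (r : ℕ∞) := by
      apply le_antisymm
      · refine (M.eRk_le_eRank _).trans ?_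
        rw [← hBb.encard_eq_eRank, Set.encard_coe_eq_coe_finsetCard, ((mem_pav _ _ _).1 hB).1]
      · rw [Matroid.le_eRk_iff]
        refine ⟨(B : Set α), by exact_mod_cast hBX, hBb.indep, ?_⟩
        rw [Set.encard_coe_eq_coe_finsetCard, ((mem_pav _ _ _).1 hB).1]
    rw [h3, ENat.toNat_natCast]

/-- Sums over all sets of a function of size and rank depend only on the sizes. -/
theorem sum_rho {R : Type} [AddCommGroup R] (w : ℕ → ℕ → R) (A : Fin s → Finset α) (h : Typ A)
    (r : ℕ) (hsr : s ≤ r) :
    ∑ X : Finset α, w X.card (rho r A X) = ∑ X : Finset α, w X.card (min X.card r) +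
      ∑ i, ∑ X ∈ ((A i)ᶜ).powerset, (if r ≤ X.card then w X.card (r - 1) - w X.card r else 0) := by
  classical
  have h1 : ∀ i, ∑ X ∈ ((A i)ᶜ).powerset,
      (if r ≤ X.card then w X.card (r - 1) - w X.card r else 0)
      = ∑ X : Finset α, (if Disjoint X (A i) then
        (if r ≤ X.card then w X.card (r - 1) - w X.card r else 0) else 0) := by
    intro i
    rw [← sum_filter (fun X : Finset α => Disjoint X (A i))]
    apply sum_congr _ (fun _ _ => rfl)
    ext X
    rw [mem_powerset, mem_filter]
    constructor
    · intro hX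
      refine ⟨mem_univ _, ?_⟩
      rw [disjoint_left]
      intro x hx
      exact mem_compl.1 (hX hx)
    · rintro ⟨-, hX⟩ x hx
      rw [mem_compl]
      exact (disjoint_left.1 hX) hx
  rw [sum_congr rfl (fun i _ => h1 i), sum_comm, ← sum_add_distrib]
  apply sum_congr rfl
  intro X _
  unfold rho
  by_cases h2 : X.card < r
  · have h4 : ∀ i ∈ (univ : Finset (Fin s)), (if Disjoint X (A i) then
        (if r ≤ X.card then w X.card (r - 1) - w X.card r else 0) else 0) = 0 := by
      intro i _
      rw [if_neg (show ¬ r ≤ X.card by omega), ite_self]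
    rw [if_pos h2, sum_eq_zero h4, add_zero, min_eq_left h2.le]
  · by_cases h3 : ∃ i, Disjoint X (A i)
    · rw [if_neg h2, if_pos h3]
      obtain ⟨i, hi⟩ := h3
      rw [sum_eq_single i]
      · rw [if_pos hi, if_pos (show r ≤ X.card by omega), min_eq_right (by omega)]
        abel
      · intro j _ hji
        rw [if_neg]
        intro hj
        have := h.inter hji X hj hi
        omega
      · intro h4
        exact absurd (mem_univ i) h4
    · rw [if_neg h2, if_neg h3]
      push Not at h3
      have h4 : ∀ i ∈ (univ : Finset (Fin s)), (if Disjoint X (A i) then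
          (if r ≤ X.card then w X.card (r - 1) - w X.card r else 0) else 0) = 0 := by
        intro i _
        rw [if_neg (h3 i)]
      rw [sum_eq_zero h4, add_zero, min_eq_right (by omega)]

theorem sum_rho_congr {R : Type} [AddCommGroup R] (w : ℕ → ℕ → R) (A A' : Fin s → Finset α)
    (h : Typ A) (h' : Typ A') (r : ℕ) (hsr : s ≤ r) (hc : ∀ i, (A i).card = (A' i).card) :
    ∑ X : Finset α, w X.card (rho r A X) = ∑ X : Finset α, w X.card (rho r A' X) := by
  rw [sum_rho w A h r hsr, sum_rho w A' h' r hsr]
  congr 1
  apply sum_congr rfl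
  intro i _
  rw [Finset.sum_powerset_apply_card (fun k => if r ≤ k then w k (r - 1) - w k r else 0),
    Finset.sum_powerset_apply_card (fun k => if r ≤ k then w k (r - 1) - w k r else 0),
    card_compl, card_compl, hc i]

end Rank

end Pool.Agent.Helper46.T
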