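import Pool.Agent.Helper46.T.Bases

set_option autoImplicit false
set_option linter.unusedSectionVars false

namespace Pool.Agent.Helper46.T

open Finset

variable {α : Type} [Fintype α] [DecidableEq α] [Nonempty α] {s : ℕ}

/-- Typical families. -/
def Typ (A : Fin s → Finset α) : Prop :=
  ∀ I : Finset (Fin s), 2 ≤ I.card → Fintype.card α + I.card ≤ (I.biUnion A).card + s

theorem Typ.inter {A : Fin s → Finset α} (h : Typ A) {i j : Fin s} (hij : i ≠ j) (X : Finset α)
    (hi : Disjoint X (A i)) (hj : Disjoint X (A j)) : X.card + 2 ≤ s := by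
  have h1 := h {i, j} (by rw [card_pair hij])
  rw [card_pair hij] at h1
  have h2 : X ⊆ (({i, j} : Finset (Fin s)).biUnion A)ᶜ := by
    intro x hx
    rw [mem_compl, mem_biUnion]
    rintro ⟨l, hl, hxl⟩
    rw [mem_insert, mem_singleton] at hl
    rcases hl with rfl | rfl
    · exact (disjoint_left.1 hi) hx hxl
    · exact (disjoint_left.1 hj) hx hxl
  have h3 := card_le_card h2
  rw [card_compl] at h3
  have h4 := card_le_univ (({i, j} : Finset (Fin s)).biUnion A)
  omega

open Classical in
/-- Sets of size `r` meeting every member of the family. -/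
noncomputable def pav (r : ℕ) (A : Fin s → Finset α) : Finset (Finset α) :=
  univ.filter (fun B => B.card = r ∧ ∀ i, ¬ Disjoint B (A i))

theorem mem_pav (r : ℕ) (A : Fin s → Finset α) (B : Finset α) :
    B ∈ pav r A ↔ B.card = r ∧ ∀ i, ¬ Disjoint B (A i) := by
  simp [pav]

theorem bas_typ (A : Fin s → Finset α) (h : Typ A) : bas A = pav s A := by
  ext B
  rw [mem_bas_hall, mem_pav]
  constructor
  · rintro ⟨h1, h2⟩
    refine ⟨h1, ?_⟩
    intro i hd
    have h3 := h2 {i}
    rw [card_singleton, singleton_biUnion, inter_comm, disjoint_iff_inter_eq_empty.1 hd,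
      card_empty] at h3
    omega
  · rintro ⟨h1, h2⟩
    refine ⟨h1, ?_⟩
    intro I
    by_cases hI : 2 ≤ I.card
    · have h3 := h I hI
      have h4 : B.card ≤ (I.biUnion A ∩ B).card + (I.biUnion A)ᶜ.card := by
        calc B.card ≤ ((I.biUnion A ∩ B) ∪ (I.biUnion A)ᶜ).card := by
              apply card_le_card
              intro x hx
              rw [mem_union, mem_inter, mem_compl]
              by_cases hxA : x ∈ I.biUnion A
              · exact Or.inl ⟨hxA, hx⟩
              · exact Or.inr hxA
          _ ≤ _ := card_union_le _ _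
      rw [card_compl] at h4
      have h5 := card_le_univ (I.biUnion A)
      omega
    · rcases Nat.lt_or_ge 0 I.card with h0 | h0
      · have h3 : I.card = 1 := by omega
        rw [card_eq_one] at h3
        obtain ⟨i, rfl⟩ := h3
        rw [card_singleton, singleton_biUnion, Nat.succ_le_iff, card_pos]
        have h4 := h2 i
        rw [disjoint_iff_inter_eq_empty, ← Ne, ← nonempty_iff_ne_empty, inter_comm] at h4
        exact h4
      · omega

theorem lift_pav (A : Fin s → Finset α) (h : Typ A) (r : ℕ) (hsr : s ≤ r) :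
    Lift (pav r A) = pav (r + 1) A := by
  ext B
  rw [mem_Lift, mem_pav]
  constructor
  · rintro ⟨b, hb, hB⟩
    rw [mem_pav] at hB
    refine ⟨?_, ?_⟩
    · have h1 := hB.1
      rw [card_erase_of_mem hb] at h1
      have : 0 < B.card := card_pos.2 ⟨b, hb⟩
      omega
    · intro i hd
      exact hB.2 i (hd.mono_left (erase_subset _ _))
  · rintro ⟨h1, h2⟩
    by_contra hcon
    push Not at hcon
    have h3 : ∀ b ∈ B, ∃ i, Disjoint (B.erase b) (A i) := by
      intro b hb
      have h4 := hcon b hb
      rw [mem_pav, not_and] at h4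
      have h5 := h4 (by rw [card_erase_of_mem hb, h1]; rfl)
      push Not at h5
      exact h5
    have hBne : B.Nonempty := by
      rw [← card_pos]
      omega
    obtain ⟨b, hb⟩ := hBne
    obtain ⟨i, hi⟩ := h3 b hb
    -- r is positive since the family is nonempty
    have hs : 0 < s := Fin.pos i
    have hBe : (B.erase b).Nonempty := by
      rw [← card_pos, card_erase_of_mem hb]
      omega
    obtain ⟨c, hc⟩ := hBe
    rw [mem_erase] at hc
    obtain ⟨j, hj⟩ := h3 c hc.2
    have hij : i ≠ j := by
      intro hij
      subst hij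
      apply h2 i
      rw [disjoint_left]
      intro x hx hxA
      by_cases hxb : x = b
      · subst hxb
        exact (disjoint_left.1 hj) (mem_erase.2 ⟨Ne.symm hc.1, hb⟩) hxA
      · exact (disjoint_left.1 hi) (mem_erase.2 ⟨hxb, hx⟩) hxA
    have h6 := h.inter hij ((B.erase b).erase c) (hi.mono_left (erase_subset _ _))
      (hj.mono_left (by
        intro x hx
        rw [mem_erase, mem_erase] at hx
        exact mem_erase.2 ⟨hx.1, hx.2.2⟩))
    rw [card_erase_of_mem (mem_erase.2 hc), card_erase_of_mem hb] at h6
    omega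

theorem iterate_lift (A : Fin s → Finset α) (h : Typ A) (j : ℕ) :
    Lift^[j] (bas A) = pav (s + j) A := by
  induction j with
  | zero => exact bas_typ A h
  | succ j ih =>
    rw [Function.iterate_succ_apply', ih, lift_pav A h (s + j) (by omega)]
    rfl

/-- Completing a set inside `X`. -/
theorem exists_complete (A : Fin s → Finset α) (h : Typ A) (r : ℕ) (hsr : s ≤ r) (X I : Finset α)
    (hIX : I ⊆ X) (hI : I.card < r) (hX : r ≤ X.card) (hXA : ∀ i, ¬ Disjoint X (A i)) :
    ∃ B ∈ pav r A, I ⊆ B ∧ B ⊆ X := by
  -- enlarge I to size r - 1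
  obtain ⟨J, hIJ, hJX, hJ⟩ := exists_subsuperset_card_eq hIX (n := r - 1) (by omega) (by omega)
  have hne : (X \ J).Nonempty := by
    rw [← card_pos]
    have := le_card_sdiff J X
    omega
  by_cases hd : ∃ i, Disjoint J (A i)
  · obtain ⟨i, hi⟩ := hd
    have h1 := hXA i
    rw [not_disjoint_iff] at h1
    obtain ⟨e, heX, heA⟩ := h1
    have heJ : e ∉ J := fun h => (disjoint_left.1 hi) h heA
    refine ⟨insert e J, ?_, hIJ.trans (subset_insert _ _), insert_subset heX hJX⟩
    rw [mem_pav, card_insert_of_notMem heJ]
    refine ⟨by omega, ?_⟩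
    intro l hl
    by_cases hli : l = i
    · subst hli
      exact (disjoint_left.1 hl) (mem_insert_self _ _) heA
    · have := h.inter hli J (hl.mono_left (subset_insert _ _)) hi
      omega
  · push Not at hd
    obtain ⟨e, he⟩ := hne
    rw [mem_sdiff] at he
    refine ⟨insert e J, ?_, hIJ.trans (subset_insert _ _), insert_subset he.1 hJX⟩
    rw [mem_pav, card_insert_of_notMem he.2]
    refine ⟨by omega, ?_⟩
    intro l hl
    exact hd l (hl.mono_left (subset_insert _ _))

/-- Typical families with the same bases agree up to order. -/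
theorem typ_unique (A A' : Fin s → Finset α) (h : Typ A) (h' : Typ A')
    (hc : ∀ i, (A i).card + s ≤ Fintype.card α) (hc' : ∀ i, (A' i).card + s ≤ Fintype.card α)
    (heq : pav s A = pav s A') : ∃ σ : Equiv.Perm (Fin s), ∀ i, A' (σ i) = A i := by
  have key : ∀ (A A' : Fin s → Finset α), Typ A → Typ A' →
      (∀ i, (A i).card + s ≤ Fintype.card α) → pav s A = pav s A' →
      ∀ i, ∃ j, A' j ⊆ A i := by
    intro A A' h h' hc heq i
    have hs : 0 < s := Fin.pos i
    have hB : ∀ B : Finset α, B.card = s → Disjoint B (A i) → ∃ j, Disjoint B (A' j) := by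
      intro B hB hd
      by_contra hcon
      push Not at hcon
      have h1 : B ∈ pav s A' := (mem_pav _ _ _).2 ⟨hB, hcon⟩
      rw [← heq, mem_pav] at h1
      exact h1.2 i hd
    obtain ⟨B, hBsub, hBcard⟩ := exists_subset_card_eq (s := (A i)ᶜ) (n := s) (by
      rw [card_compl]
      have := hc i
      omega)
    have hBd : Disjoint B (A i) := by
      rw [disjoint_left]
      intro x hx
      exact mem_compl.1 (hBsub hx)
    obtain ⟨j, hj⟩ := hB B hBcard hBd
    refine ⟨j, ?_⟩
    intro e heA'
    by_contra heA
    have heB : e ∉ B := fun h => (disjoint_left.1 hj) h heA'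
    obtain ⟨b, hb⟩ : B.Nonempty := by
      rw [← card_pos]
      omega
    have hcard : (insert e (B.erase b)).card = s := by
      rw [card_insert_of_notMem (fun h => heB (mem_erase.1 h).2), card_erase_of_mem hb]
      omega
    have hd2 : Disjoint (insert e (B.erase b)) (A i) := by
      rw [disjoint_insert_left]
      exact ⟨heA, hBd.mono_left (erase_subset _ _)⟩
    obtain ⟨l, hl⟩ := hB _ hcard hd2
    have hlj : l ≠ j := by
      intro hlj
      subst hlj
      rw [disjoint_insert_left] at hl
      exact hl.1 heA'
    have h4 := h'.inter hlj (B.erase b) (hl.mono_left (subset_insert _ _))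
      (hj.mono_left (erase_subset _ _))
    rw [card_erase_of_mem hb] at h4
    omega
  have h1 := key A A' h h' hc heq
  have h2 := key A' A h' h hc' heq.symm
  choose τ hτ using h1
  choose τ' hτ' using h2
  have h3 : ∀ i, τ' (τ i) = i := by
    intro i
    by_contra hne
    have h4 : A (τ' (τ i)) ⊆ A i := (hτ' _).trans (hτ i)
    have h5 := h.inter hne ((A i)ᶜ) (by
      rw [disjoint_left]
      intro x hx hx'
      exact (mem_compl.1 hx) (h4 hx')) (by
      rw [disjoint_left]
      intro x hx
      exact mem_compl.1 hx)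
    rw [card_compl] at h5
    have := hc i
    omega
  have h4 : ∀ j, τ (τ' j) = j := by
    intro i
    by_contra hne
    have h4 : A' (τ (τ' i)) ⊆ A' i := (hτ _).trans (hτ' i)
    have h5 := h'.inter hne ((A' i)ᶜ) (by
      rw [disjoint_left]
      intro x hx hx'
      exact (mem_compl.1 hx) (h4 hx')) (by
      rw [disjoint_left]
      intro x hx
      exact mem_compl.1 hx)
    rw [card_compl] at h5
    have := hc' i
    omega
  refine ⟨⟨τ, τ', h3, h4⟩, ?_⟩
  intro i
  change A' (τ i) = A i
  apply Subset.antisymm (hτ i)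
  have := hτ' (τ i)
  rw [h3] at this
  exact this

end Pool.Agent.Helper46.T
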